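import Pool.Agent.Y731.RD.Fin

set_option autoImplicit false

/-!
Bihomogeneous forms in two pairs of variables, given by their coefficients: the number of those
with a given value.
-/

namespace Pool.Agent.Y731.RD

open Finset MvPolynomial

/-- the value of a binary form -/
def ev1 {a : ℕ} (c : Fin (a + 1) → ℤ) (s : Fin 2 → ℤ) : ℤ :=
  ∑ i, c i * (s 0 ^ (a - (i : ℕ)) * s 1 ^ (i : ℕ))

/-- the value of a bihomogeneous form -/
def ev2 {a b : ℕ} (F : Fin (b + 1) → Fin (a + 1) → ℤ) (s t : Fin 2 → ℤ) : ℤ :=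
  ev1 (fun l => ev1 (F l) s) t

/-- the coefficient vectors in a box -/
noncomputable def Bx (a A : ℕ) : Finset (Fin (a + 1) → ℤ) :=
  Fintype.piFinset fun _ => Finset.Icc (-(A : ℤ)) A

theorem mem_Bx {a A : ℕ} {c : Fin (a + 1) → ℤ} : c ∈ Bx a A ↔ ∀ i, |c i| ≤ (A : ℤ) := by
  unfold Bx
  rw [Fintype.mem_piFinset]
  refine forall_congr' fun i => ?_
  rw [Finset.mem_Icc, abs_le]

theorem card_Bx (a A : ℕ) : (Bx a A).card = (2 * A + 1) ^ (a + 1) := by
  unfold Bx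
  rw [Fintype.card_piFinset]
  simp only [Int.card_Icc, Finset.prod_const, Finset.card_univ, Fintype.card_fin]
  congr 1
  omega

/-- the monomials -/
noncomputable def mo (a : ℕ) (i : Fin (a + 1)) : Fin 2 →₀ ℕ :=
  Finsupp.single 0 (a - (i : ℕ)) + Finsupp.single 1 (i : ℕ)

theorem mo_one (a : ℕ) (i : Fin (a + 1)) : mo a i 1 = i := by
  unfold mo; simp

theorem mo_inj (a : ℕ) : Function.Injective (mo a) := by
  intro i i' h
  have h1 := congrArg (fun α : Fin 2 →₀ ℕ => α 1) h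
  simp only [mo_one] at h1
  exact Fin.ext h1

/-- the form with given coefficients -/
noncomputable def bin {a : ℕ} (c : Fin (a + 1) → ℤ) : MvPolynomial (Fin (1 + 1)) ℤ :=
  ∑ i, monomial (mo a i) (c i)

theorem coeff_bin {a : ℕ} (c : Fin (a + 1) → ℤ) (i : Fin (a + 1)) : coeff (mo a i) (bin c) = c i := by
  classical
  unfold bin
  simp only [coeff_sum, coeff_monomial]
  rw [Finset.sum_eq_single i]
  · simp
  · intro i' _ h
    rw [if_neg]
    exact fun h' => h (mo_inj a h')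
  · simp

theorem coeff_bin_zero {a : ℕ} (c : Fin (a + 1) → ℤ) {α : Fin 2 →₀ ℕ} (h : ∀ i, mo a i ≠ α) :
    coeff α (bin c) = 0 := by
  classical
  unfold bin
  simp only [coeff_sum, coeff_monomial]
  exact Finset.sum_eq_zero fun i _ => if_neg (h i)

theorem bin_mem {a A : ℕ} {c : Fin (a + 1) → ℤ} (hc : c ∈ Bx a A) : bin c ∈ Fm 1 a A := by
  rw [mem_Bx] at hc
  rw [mem_Fm]
  refine ⟨?_, fun α => ?_⟩
  · unfold bin
    refine IsHomogeneous.sum _ _ _ fun i _ => isHomogeneous_monomial _ ?_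
    unfold mo
    rw [map_add, Finsupp.degree_single, Finsupp.degree_single]
    have := i.2
    omega
  · by_cases h : ∃ i, mo a i = α
    · obtain ⟨i, rfl⟩ := h
      rw [coeff_bin]; exact hc i
    · push Not at h
      rw [coeff_bin_zero c h]; simp

theorem eval_bin {a : ℕ} (c : Fin (a + 1) → ℤ) (s : Fin 2 → ℤ) :
    MvPolynomial.eval s (bin c) = ev1 c s := by
  unfold bin ev1
  rw [map_sum]
  refine Finset.sum_congr rfl fun i _ => ?_
  rw [eval_monomial]
  congr 1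
  unfold mo
  rw [Finsupp.prod_fintype _ _ (fun i => pow_zero _), Fin.prod_univ_two]
  simp

theorem card_Mon_le (a : ℕ) : (Mon 1 a).card ≤ a + 1 := by
  have h1 : (Mon 1 a).card ≤ (Finset.range (a + 1)).card := by
    refine Finset.card_le_card_of_injOn (fun α => α 1) ?_ ?_
    · intro α hα
      rw [Finset.mem_coe, mem_Mon, Finsupp.degree_eq_sum, Fin.sum_univ_two] at hα
      simp only [Finset.coe_range, Set.mem_Iio]
      omega
    · intro α hα β hβ h
      rw [Finset.mem_coe, mem_Mon, Finsupp.degree_eq_sum, Fin.sum_univ_two] at hα hβ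
      simp only at h
      ext i
      fin_cases i
      · simp only [Fin.zero_eta]; omega
      · exact h
  simpa using h1

theorem min_le_lev {N A : ℕ} (x : Fin (N + 1) → ℤ) (s : ℕ) : min s A ≤ lev A x s := by
  unfold lev
  split_ifs
  · exact min_le_left _ _
  · exact le_rfl

/-- the number of binary forms with a given value -/
theorem card_ev1 (a : ℕ) : ∃ K : ℝ, 0 < K ∧ ∀ A : ℕ, 1 ≤ A → ∀ (s v : Fin 2 → ℤ),
    ∑ i, v i * s i = 1 → ∀ n : ℤ,
    (((Bx a A).filter fun c => ev1 c s = n).card : ℝ) ≤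
      K * (2 * A + 1) ^ (a + 1) * ((A : ℝ)⁻¹ * (((min (nrm s) A : ℕ) : ℝ) ^ a)⁻¹) := by
  classical
  obtain ⟨K, hK0, hK⟩ := card_value' 1 a
  refine ⟨K, hK0, fun A hA s v hv n => ?_⟩
  have h1 : ((Bx a A).filter fun c => ev1 c s = n).card ≤
      ((Fm 1 a A).filter fun F => MvPolynomial.eval s F = n).card := by
    refine Finset.card_le_card_of_injOn bin ?_ ?_
    · intro c hc
      have hc' := Finset.mem_filter.1 (Finset.mem_coe.1 hc)
      refine Finset.mem_coe.2 (Finset.mem_filter.2 ⟨bin_mem hc'.1, ?_⟩)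
      rw [eval_bin]; exact hc'.2
    · intro c _ c' _ h
      funext i
      rw [← coeff_bin c i, ← coeff_bin c' i, h]
  have h2 := hK A hA s v hv n
  have hs : 0 < nrm s := nrm_pos hv
  have hm : 0 < min (nrm s) A := lt_min hs (by omega)
  have hm0 : (0 : ℝ) < ((min (nrm s) A : ℕ) : ℝ) := by exact_mod_cast hm
  have hl := min_le_lev (A := A) s (nrm s)
  have hl0 : ((min (nrm s) A : ℕ) : ℝ) ≤ (lev A s (nrm s) : ℝ) := by exact_mod_cast hl
  have hA0 : (0 : ℝ) < A := by exact_mod_cast (show 0 < A by omega)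
  have h3 : ((lev A s (nrm s) : ℝ) ^ a)⁻¹ ≤ (((min (nrm s) A : ℕ) : ℝ) ^ a)⁻¹ :=
    inv_anti₀ (pow_pos hm0 _) (pow_le_pow_left₀ hm0.le hl0 _)
  have h4 : ((Fm 1 a A).card : ℝ) ≤ (2 * (A : ℝ) + 1) ^ (a + 1) := by
    rw [card_Fm]; push_cast
    exact pow_le_pow_right₀ (by linarith) (card_Mon_le a)
  refine (Nat.cast_le.2 h1).trans (h2.trans ?_)
  exact mul_le_mul (mul_le_mul_of_nonneg_left h4 hK0.le)
    (mul_le_mul_of_nonneg_left h3 (inv_nonneg.2 hA0.le))
    (mul_nonneg (inv_nonneg.2 hA0.le) (inv_nonneg.2 (pow_nonneg (Nat.cast_nonneg _) _)))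
    (mul_nonneg hK0.le (pow_nonneg (by linarith) _))

/-- values of binary forms -/
theorem ev1_le {a A : ℕ} {c : Fin (a + 1) → ℤ} (hc : c ∈ Bx a A) (s : Fin 2 → ℤ) :
    |ev1 c s| ≤ (((a + 1) * A * nrm s ^ a : ℕ) : ℤ) := by
  rw [mem_Bx] at hc
  unfold ev1
  refine (Finset.abs_sum_le_sum_abs _ _).trans ?_
  have h1 : ∀ i ∈ (Finset.univ : Finset (Fin (a + 1))),
      |c i * (s 0 ^ (a - (i : ℕ)) * s 1 ^ (i : ℕ))| ≤ ((A * nrm s ^ a : ℕ) : ℤ) := by
    intro i _
    rw [abs_mul, abs_mul, abs_pow, abs_pow]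
    have h0 : ∀ k : Fin 2, |s k| ≤ (nrm s : ℤ) := by
      intro k
      have := le_nrm s k
      rw [Int.abs_eq_natAbs]
      exact_mod_cast this
    have h2 : |s 0| ^ (a - (i : ℕ)) * |s 1| ^ (i : ℕ) ≤ (nrm s : ℤ) ^ a := by
      calc |s 0| ^ (a - (i : ℕ)) * |s 1| ^ (i : ℕ)
          ≤ (nrm s : ℤ) ^ (a - (i : ℕ)) * (nrm s : ℤ) ^ (i : ℕ) :=
            mul_le_mul (pow_le_pow_left₀ (abs_nonneg _) (h0 0) _)
              (pow_le_pow_left₀ (abs_nonneg _) (h0 1) _) (by positivity) (by positivity)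
        _ = (nrm s : ℤ) ^ a := by
            rw [← pow_add]
            congr 1
            have := i.2
            omega
    push_cast
    exact mul_le_mul (hc i) h2 (by positivity) (by positivity)
  refine (Finset.sum_le_sum h1).trans ?_
  rw [Finset.sum_const, Finset.card_univ, Fintype.card_fin, nsmul_eq_mul]
  push_cast
  exact le_of_eq (by ring)

/-- the coefficients of bihomogeneous forms -/
noncomputable def Bx2 (a b A : ℕ) : Finset (Fin (b + 1) → Fin (a + 1) → ℤ) :=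
  Fintype.piFinset fun _ => Bx a A

theorem card_Bx2 (a b A : ℕ) : (Bx2 a b A).card = ((2 * A + 1) ^ (a + 1)) ^ (b + 1) := by
  unfold Bx2
  rw [Fintype.card_piFinset]
  simp only [card_Bx, Finset.prod_const, Finset.card_univ, Fintype.card_fin]

/-- the number of bihomogeneous forms with a given value -/
theorem card_ev2 (a b : ℕ) : ∃ K : ℝ, 0 < K ∧ ∀ A : ℕ, 1 ≤ A → ∀ (s v t u : Fin 2 → ℤ),
    ∑ i, v i * s i = 1 → ∑ i, u i * t i = 1 → nrm s ≤ A → ∀ w : ℤ,
    (((Bx2 a b A).filter fun F => ev2 F s t = w).card : ℝ) ≤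
      K * (Bx2 a b A).card * ((A : ℝ) * (nrm s : ℝ) ^ a *
        ((min (nrm t) (A * nrm s ^ a) : ℕ) : ℝ) ^ b)⁻¹ := by
  classical
  obtain ⟨K1, hK1, h1⟩ := card_ev1 a
  obtain ⟨K2, hK2, h2⟩ := card_ev1 b
  refine ⟨K2 * K1 ^ (b + 1) * (3 * (a + 1)) ^ (b + 1), by positivity,
    fun A hA s v t u hv hu hsA w => ?_⟩
  set A' : ℕ := (a + 1) * A * nrm s ^ a with hA'
  have hs : 0 < nrm s := nrm_pos hv
  have ht : 0 < nrm t := nrm_pos hu
  have hA0 : (0 : ℝ) < A := by exact_mod_cast (show 0 < A by omega)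
  have hs0 : (0 : ℝ) < nrm s := by exact_mod_cast hs
  have hpow : 1 ≤ nrm s ^ a := Nat.one_le_pow _ _ hs
  have hA'1 : A * nrm s ^ a ≤ A' := by rw [hA']; nlinarith [Nat.zero_le (a * (A * nrm s ^ a))]
  have hA'2 : 1 ≤ A' := le_trans (Nat.mul_pos (by omega) hpow) hA'1
  set c1 : ℝ := K1 * (2 * A + 1) ^ (a + 1) * ((A : ℝ)⁻¹ * ((nrm s : ℝ) ^ a)⁻¹) with hc1
  have hc10 : 0 ≤ c1 := by positivity
  -- the fibres
  have h3 : ((Bx2 a b A).filter fun F => ev2 F s t = w).card =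
      ∑ g ∈ (Bx b A').filter (fun g => ev1 g t = w),
        (((Bx2 a b A).filter fun F => ev2 F s t = w).filter
          fun F => (fun l => ev1 (F l) s) = g).card := by
    refine Finset.card_eq_sum_card_fiberwise fun F hF => ?_
    have hF' := Finset.mem_filter.1 (Finset.mem_coe.1 hF)
    refine Finset.mem_coe.2 (Finset.mem_filter.2 ⟨?_, hF'.2⟩)
    rw [mem_Bx]
    intro l
    have h4 := hF'.1
    unfold Bx2 at h4
    rw [Fintype.mem_piFinset] at h4
    exact ev1_le (h4 l) s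
  have h4 : ∀ g ∈ (Bx b A').filter (fun g => ev1 g t = w),
      ((((Bx2 a b A).filter fun F => ev2 F s t = w).filter
          fun F => (fun l => ev1 (F l) s) = g).card : ℝ) ≤ c1 ^ (b + 1) := by
    intro g _
    have h5 : (((Bx2 a b A).filter fun F => ev2 F s t = w).filter
          fun F => (fun l => ev1 (F l) s) = g) ⊆
        Fintype.piFinset fun l => (Bx a A).filter fun c => ev1 c s = g l := by
      intro F hF
      have hF' := Finset.mem_filter.1 hF
      have hF'' := (Finset.mem_filter.1 hF'.1).1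
      unfold Bx2 at hF''
      rw [Fintype.mem_piFinset] at hF'' ⊢
      intro l
      refine Finset.mem_filter.2 ⟨hF'' l, ?_⟩
      rw [← hF'.2]
    have h6 := Finset.card_le_card h5
    rw [Fintype.card_piFinset] at h6
    have h7 : ((((Bx2 a b A).filter fun F => ev2 F s t = w).filter
          fun F => (fun l => ev1 (F l) s) = g).card : ℝ) ≤
        ∏ l : Fin (b + 1), (((Bx a A).filter fun c => ev1 c s = g l).card : ℝ) := by
      exact_mod_cast h6
    refine h7.trans ?_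
    calc ∏ l : Fin (b + 1), (((Bx a A).filter fun c => ev1 c s = g l).card : ℝ)
        ≤ ∏ _l : Fin (b + 1), c1 := by
          refine Finset.prod_le_prod (fun _ _ => Nat.cast_nonneg _) fun l _ => ?_
          have h8 := h1 A hA s v hv (g l)
          rw [min_eq_left hsA] at h8
          exact h8
      _ = c1 ^ (b + 1) := by simp
  have h5 := h2 A' hA'2 t u hu w
  have h6 : (((Bx2 a b A).filter fun F => ev2 F s t = w).card : ℝ) ≤
      (((Bx b A').filter (fun g => ev1 g t = w)).card : ℝ) * c1 ^ (b + 1) := by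
    rw [h3]; push_cast
    refine (Finset.sum_le_sum h4).trans ?_
    rw [Finset.sum_const, nsmul_eq_mul]
  have hA'0 : (0 : ℝ) < (A : ℝ) * (nrm s : ℝ) ^ a := by positivity
  have hA'3 : (A' : ℝ) = (a + 1) * ((A : ℝ) * (nrm s : ℝ) ^ a) := by
    rw [hA']; push_cast; ring
  have hA'4 : (A : ℝ) * (nrm s : ℝ) ^ a ≤ A' := by
    exact_mod_cast hA'1
  have hm : 0 < min (nrm t) (A * nrm s ^ a) := lt_min ht (Nat.mul_pos (by omega) hpow)
  have hm0 : (0 : ℝ) < ((min (nrm t) (A * nrm s ^ a) : ℕ) : ℝ) := by exact_mod_cast hm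
  have hm1 : ((min (nrm t) (A * nrm s ^ a) : ℕ) : ℝ) ≤ ((min (nrm t) A' : ℕ) : ℝ) := by
    exact_mod_cast min_le_min_left _ hA'1
  have h7 : (((Bx b A').filter (fun g => ev1 g t = w)).card : ℝ) ≤
      K2 * (3 * (a + 1) * ((A : ℝ) * (nrm s : ℝ) ^ a)) ^ (b + 1) *
        (((A : ℝ) * (nrm s : ℝ) ^ a)⁻¹ *
          (((min (nrm t) (A * nrm s ^ a) : ℕ) : ℝ) ^ b)⁻¹) := by
    refine h5.trans ?_
    have h8 : (2 * (A' : ℝ) + 1) ^ (b + 1) ≤
        (3 * (a + 1) * ((A : ℝ) * (nrm s : ℝ) ^ a)) ^ (b + 1) := by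
      refine pow_le_pow_left₀ (by positivity) ?_ _
      have h9 : (1 : ℝ) ≤ A' := by exact_mod_cast hA'2
      have h10 : 2 * (A' : ℝ) + 1 ≤ 3 * A' := by linarith
      refine h10.trans (le_of_eq ?_)
      rw [hA'3]; ring
    have h9 : (A' : ℝ)⁻¹ ≤ ((A : ℝ) * (nrm s : ℝ) ^ a)⁻¹ := inv_anti₀ hA'0 hA'4
    have h10 : (((min (nrm t) A' : ℕ) : ℝ) ^ b)⁻¹ ≤
        (((min (nrm t) (A * nrm s ^ a) : ℕ) : ℝ) ^ b)⁻¹ :=
      inv_anti₀ (pow_pos hm0 _) (pow_le_pow_left₀ hm0.le hm1 _)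
    exact mul_le_mul (mul_le_mul_of_nonneg_left h8 hK2.le)
      (mul_le_mul h9 h10 (by positivity) (by positivity)) (by positivity) (by positivity)
  refine h6.trans ((mul_le_mul_of_nonneg_right h7 (by positivity)).trans (le_of_eq ?_))
  rw [hc1, card_Bx2]
  generalize ((min (nrm t) (A * nrm s ^ a) : ℕ) : ℝ) = M0
  push_cast
  have h8 : (A : ℝ) * (nrm s : ℝ) ^ a ≠ 0 := hA'0.ne'
  rw [mul_pow (3 * ((a : ℝ) + 1)), mul_pow (K1 * _), mul_pow K1, ← mul_inv (A : ℝ), inv_pow]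
  have h9 : (((A : ℝ) * (nrm s : ℝ) ^ a)) ^ (b + 1) * ((((A : ℝ) * (nrm s : ℝ) ^ a)) ^ (b + 1))⁻¹ = 1 :=
    mul_inv_cancel₀ (by positivity)
  rw [mul_inv ((A : ℝ) * (nrm s : ℝ) ^ a)]
  calc _ = K2 * K1 ^ (b + 1) * (3 * ((a : ℝ) + 1)) ^ (b + 1) *
        ((2 * (A : ℝ) + 1) ^ (a + 1)) ^ (b + 1) *
        (((A : ℝ) * (nrm s : ℝ) ^ a)⁻¹ * (M0 ^ b)⁻¹) *
        ((((A : ℝ) * (nrm s : ℝ) ^ a)) ^ (b + 1) *
          ((((A : ℝ) * (nrm s : ℝ) ^ a)) ^ (b + 1))⁻¹) := by ring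
    _ = _ := by rw [h9, mul_one]

end Pool.Agent.Y731.RD
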