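import Pool.Agent.Y731.RD.Bi

set_option autoImplicit false

/-!
Random divisors on the product of two projective lines: truncated counting functions.
-/

namespace Pool.Agent.Y731.RD

open Finset Pool.Agent.H813R3.Voj

variable {m : ℕ}

/-- tuples of bihomogeneous forms with bounded coefficients -/
noncomputable def Bt (a b : Fin m → ℕ) (A : ℕ) :
    Finset (∀ j : Fin m, Fin (b j + 1) → Fin (a j + 1) → ℤ) :=
  Fintype.piFinset fun j => Bx2 (a j) (b j) A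

theorem ev2_le {a b A : ℕ} {F : Fin (b + 1) → Fin (a + 1) → ℤ} (hF : F ∈ Bx2 a b A)
    (s t : Fin 2 → ℤ) : |((ev2 F s t : ℤ) : ℝ)| ≤
      (((a + 1) * (b + 1) : ℕ) : ℝ) * A * (nrm s : ℝ) ^ a * (nrm t : ℝ) ^ b := by
  unfold Bx2 at hF
  rw [Fintype.mem_piFinset] at hF
  have h1 : (fun l => ev1 (F l) s) ∈ Bx b ((a + 1) * A * nrm s ^ a) := by
    rw [mem_Bx]; exact fun l => ev1_le (hF l) s
  have h2 : |ev2 F s t| ≤ (((b + 1) * ((a + 1) * A * nrm s ^ a) * nrm t ^ b : ℕ) : ℤ) :=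
    ev1_le h1 t
  have h4 : ((|ev2 F s t| : ℤ) : ℝ) ≤
      ((((b + 1) * ((a + 1) * A * nrm s ^ a) * nrm t ^ b : ℕ) : ℤ) : ℝ) := Int.cast_le.2 h2
  rw [Int.cast_abs, Int.cast_natCast] at h4
  refine h4.trans (le_of_eq ?_)
  push_cast; ring

/-- the expected number of values of the tuples -/
noncomputable def Pf (a b : Fin m → ℕ) (A : ℕ) (s t : Fin 2 → ℤ) : ℝ :=
  ∏ j, ((A : ℝ) * (nrm s : ℝ) ^ a j * ((min (nrm t) (A * nrm s ^ a j) : ℕ) : ℝ) ^ b j)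

theorem Pf_pos (a b : Fin m → ℕ) {A : ℕ} (hA : 1 ≤ A) {s t : Fin 2 → ℤ} (hs : 0 < nrm s)
    (ht : 0 < nrm t) : 0 < Pf a b A s t := by
  unfold Pf
  refine Finset.prod_pos fun j _ => ?_
  have hA0 : (0 : ℝ) < A := by exact_mod_cast (show 0 < A by omega)
  have hs0 : (0 : ℝ) < nrm s := by exact_mod_cast hs
  have hm : 0 < min (nrm t) (A * nrm s ^ a j) :=
    lt_min ht (Nat.mul_pos (by omega) (pow_pos hs _))
  have hm0 : (0 : ℝ) < ((min (nrm t) (A * nrm s ^ a j) : ℕ) : ℝ) := by exact_mod_cast hm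
  exact mul_pos (mul_pos hA0 (pow_pos hs0 _)) (pow_pos hm0 _)

/-- the bad tuples for one point -/
noncomputable def Bad2 (a b : Fin m → ℕ) (S : Finset ℕ) (τ : ℝ) (A : ℕ) (s t : Fin 2 → ℤ) :
    Finset (∀ j : Fin m, Fin (b j + 1) → Fin (a j + 1) → ℤ) :=
  open Classical in (Bt a b A).filter fun F => (∀ j, ev2 (F j) s t ≠ 0) ∧
    N1 S (∏ j, ev2 (F j) s t) < τ

theorem card_Bad2 (a b : Fin m → ℕ) (S : Finset ℕ) {δ : ℝ} (hδ : 0 < δ) :
    ∃ C : ℝ, 0 < C ∧ ∀ A : ℕ, 1 ≤ A → ∀ (s v t u : Fin 2 → ℤ),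
      ∑ i, v i * s i = 1 → ∑ i, u i * t i = 1 → nrm s ≤ A → ∀ τ : ℝ,
        ((Bad2 a b S τ A s t).card : ℝ) ≤ C * (Bt a b A).card * Real.exp τ * (A : ℝ) ^ δ *
          (nrm s : ℝ) ^ δ * (nrm t : ℝ) ^ δ * (Pf a b A s t)⁻¹ := by
  classical
  set κ : ℕ := ∑ j, (a j + b j) with hκ
  set δ' : ℝ := δ / (κ + 1) with hδ'
  have hκ0 : (0 : ℝ) < (κ : ℝ) + 1 := by positivity
  have hδ'0 : 0 < δ' := by positivity
  obtain ⟨C1, hC1, h1⟩ := card_tuples m S hδ'0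
  choose K hK0 hK using fun j => card_ev2 (a j) (b j)
  obtain ⟨M, hM, hM1⟩ : ∃ M : ℕ, (∀ j, (a j + 1) * (b j + 1) ≤ M) ∧ 1 ≤ M :=
    ⟨∑ j, (a j + 1) * (b j + 1) + 1, fun j => (Finset.single_le_sum
      (f := fun j => (a j + 1) * (b j + 1)) (fun _ _ => Nat.zero_le _) (Finset.mem_univ j)).trans
        (Nat.le_succ _), Nat.succ_le_succ (Nat.zero_le _)⟩
  have hM0 : (0 : ℝ) < M := by exact_mod_cast (show 0 < M by omega)
  have hprodpos : 0 < ∏ j, K j := Finset.prod_pos fun j _ => hK0 j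
  refine ⟨C1 * (M : ℝ) ^ δ' * ∏ j, K j, by positivity,
    fun A hA s v t u hv hu hsA τ => ?_⟩
  have hA0 : (0 : ℝ) < A := by exact_mod_cast (show 0 < A by omega)
  have hA1 : (1 : ℝ) ≤ A := by exact_mod_cast hA
  have hs : 0 < nrm s := nrm_pos hv
  have ht : 0 < nrm t := nrm_pos hu
  have hs0 : (0 : ℝ) < nrm s := by exact_mod_cast hs
  have hs1 : (1 : ℝ) ≤ nrm s := by exact_mod_cast hs
  have ht0 : (0 : ℝ) < nrm t := by exact_mod_cast ht
  have ht1 : (1 : ℝ) ≤ nrm t := by exact_mod_cast ht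
  have hPf := Pf_pos a b hA hs ht
  set NN : Finset (Fin m → ℤ) := (Bad2 a b S τ A s t).image fun F => fun j => ev2 (F j) s t with hNN
  set Z : ℝ := M * A * (nrm s : ℝ) ^ κ * (nrm t : ℝ) ^ κ with hZ
  have hZ1 : 1 ≤ Z := by
    have h2 : (1 : ℝ) ≤ M := by exact_mod_cast (show 1 ≤ M by omega)
    have h3 : (1 : ℝ) ≤ (nrm s : ℝ) ^ κ := one_le_pow₀ hs1
    have h4 : (1 : ℝ) ≤ (nrm t : ℝ) ^ κ := one_le_pow₀ ht1
    calc (1 : ℝ) = 1 * 1 * 1 * 1 := by norm_num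
      _ ≤ _ := mul_le_mul (mul_le_mul (mul_le_mul h2 hA1 zero_le_one hM0.le) h3 zero_le_one
          (by positivity)) h4 zero_le_one (by positivity)
  have hNNc : (NN.card : ℝ) ≤ C1 * Real.exp τ * Z ^ δ' := by
    refine h1 Z hZ1 _ (Real.exp_pos τ).le NN ?_
    intro n hn
    obtain ⟨F, hF, rfl⟩ := Finset.mem_image.1 hn
    unfold Bad2 at hF
    rw [Finset.mem_filter] at hF
    obtain ⟨hF1, hF2, hF3⟩ := hF
    unfold Bt at hF1
    rw [Fintype.mem_piFinset] at hF1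
    refine ⟨fun j => ⟨hF2 j, ?_⟩, ?_⟩
    · refine (ev2_le (hF1 j) s t).trans ?_
      rw [hZ]
      have h2 : ((((a j + 1) * (b j + 1) : ℕ)) : ℝ) ≤ M := Nat.cast_le.2 (hM j)
      have h5 : a j + b j ≤ κ := Finset.single_le_sum (f := fun j => a j + b j)
        (fun _ _ => Nat.zero_le _) (Finset.mem_univ j)
      have h3 : (nrm s : ℝ) ^ a j ≤ (nrm s : ℝ) ^ κ := pow_le_pow_right₀ hs1 (by omega)
      have h4 : (nrm t : ℝ) ^ b j ≤ (nrm t : ℝ) ^ κ := pow_le_pow_right₀ ht1 (by omega)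
      exact mul_le_mul (mul_le_mul (mul_le_mul_of_nonneg_right h2 hA0.le) h3 (by positivity)
        (by positivity)) h4 (by positivity) (by positivity)
    · rw [N1_eq] at hF3
      have h2 : (0 : ℝ) < rho S (∏ j, ev2 (F j) s t) := by
        exact_mod_cast rho_pos S _
      rw [← Real.exp_log h2]
      exact Real.exp_le_exp.2 hF3.le
  -- the fibres
  have hfib : ∀ n ∈ NN, (((Bad2 a b S τ A s t).filter
      fun F => (fun j => ev2 (F j) s t) = n).card : ℝ) ≤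
      (∏ j, K j) * (Bt a b A).card * (Pf a b A s t)⁻¹ := by
    intro n _
    have h2 : (Bad2 a b S τ A s t).filter (fun F => (fun j => ev2 (F j) s t) = n) ⊆
        Fintype.piFinset fun j => (Bx2 (a j) (b j) A).filter fun F => ev2 F s t = n j := by
      intro F hF
      unfold Bad2 at hF
      rw [Finset.mem_filter, Finset.mem_filter] at hF
      obtain ⟨⟨hF1, -⟩, hF3⟩ := hF
      unfold Bt at hF1
      rw [Fintype.mem_piFinset] at hF1 ⊢
      intro j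
      refine Finset.mem_filter.2 ⟨hF1 j, ?_⟩
      rw [← hF3]
    have h3 := Finset.card_le_card h2
    rw [Fintype.card_piFinset] at h3
    have h4 : (((Bad2 a b S τ A s t).filter
        fun F => (fun j => ev2 (F j) s t) = n).card : ℝ) ≤
        ∏ j, (((Bx2 (a j) (b j) A).filter fun F => ev2 F s t = n j).card : ℝ) := by
      exact_mod_cast h3
    refine h4.trans ?_
    refine (Finset.prod_le_prod (fun _ _ => Nat.cast_nonneg _) fun j _ =>
      hK j A hA s v t u hv hu hsA (n j)).trans (le_of_eq ?_)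
    unfold Pf Bt
    rw [Fintype.card_piFinset, Nat.cast_prod, ← Finset.prod_inv_distrib,
      ← Finset.prod_mul_distrib, ← Finset.prod_mul_distrib]
  have h9 : (Bad2 a b S τ A s t).card = ∑ n ∈ NN, ((Bad2 a b S τ A s t).filter
      fun F => (fun j => ev2 (F j) s t) = n).card :=
    Finset.card_eq_sum_card_fiberwise fun F hF =>
      Finset.mem_coe.2 (Finset.mem_image_of_mem _ (Finset.mem_coe.1 hF))
  have h10 : ((Bad2 a b S τ A s t).card : ℝ) ≤ NN.card * ((∏ j, K j) *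
      (Bt a b A).card * (Pf a b A s t)⁻¹) := by
    rw [h9, Nat.cast_sum]
    refine (Finset.sum_le_sum hfib).trans ?_
    rw [Finset.sum_const, nsmul_eq_mul]
  have hZδ : Z ^ δ' ≤ (M : ℝ) ^ δ' * (A : ℝ) ^ δ * (nrm s : ℝ) ^ δ * (nrm t : ℝ) ^ δ := by
    rw [hZ, Real.mul_rpow (by positivity) (by positivity),
      Real.mul_rpow (by positivity) (by positivity), Real.mul_rpow hM0.le hA0.le]
    have hle : δ' ≤ δ := by
      rw [hδ']; exact div_le_self hδ.le (by linarith [Nat.cast_nonneg (α := ℝ) κ])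
    have h11 : (A : ℝ) ^ δ' ≤ (A : ℝ) ^ δ := Real.rpow_le_rpow_of_exponent_le hA1 hle
    have h14 : ∀ z : ℝ, 1 ≤ z → (z ^ κ) ^ δ' ≤ z ^ δ := by
      intro z hz
      rw [← Real.rpow_natCast, ← Real.rpow_mul (by linarith)]
      refine Real.rpow_le_rpow_of_exponent_le hz ?_
      rw [hδ', ← mul_div_assoc, div_le_iff₀ hκ0]
      nlinarith
    exact mul_le_mul (mul_le_mul (mul_le_mul_of_nonneg_left h11 (by positivity)) (h14 _ hs1)
      (by positivity) (by positivity)) (h14 _ ht1) (by positivity) (by positivity)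
  refine h10.trans ?_
  have h13 : (0 : ℝ) ≤ (∏ j, K j) * (Bt a b A).card * (Pf a b A s t)⁻¹ :=
    mul_nonneg (mul_nonneg hprodpos.le (Nat.cast_nonneg _)) (inv_nonneg.2 hPf.le)
  calc (NN.card : ℝ) * _ ≤ (C1 * Real.exp τ *
        ((M : ℝ) ^ δ' * (A : ℝ) ^ δ * (nrm s : ℝ) ^ δ * (nrm t : ℝ) ^ δ)) * _ := by
        refine mul_le_mul_of_nonneg_right (hNNc.trans ?_) h13
        exact mul_le_mul_of_nonneg_left hZδ (by positivity)
    _ = _ := by ring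

/-- the sum over the points of the line -/
theorem sum_line {ε : ℝ} (hε : 0 < ε) : ∃ C : ℝ, 0 < C ∧ ∀ T : Finset (Fin 2 → ℤ),
    (∀ x ∈ T, nrm x ≠ 0) → ∑ x ∈ T, (nrm x : ℝ) ^ (-((2 : ℝ) + ε)) ≤ C := by
  obtain ⟨C, hC, h⟩ := sum_nrm_le (m := 2) Set.univ (a := 2) (C₀ := 3 ^ 2) (by norm_num) hε
    (by norm_num) (fun B hB T hT => by
      have h1 := growth_univ 2 B hB
      refine le_trans ?_ h1
      have h2 : (T : Set (Fin 2 → ℤ)) ⊆ {x | nrm x ≤ B} := fun x hx => (hT x hx).2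
      have h3 := Set.ncard_le_ncard h2 (finite_nrm B)
      rw [Set.ncard_coe_finset] at h3
      exact_mod_cast h3)
  exact ⟨C, hC, fun T hT => h T fun x hx => ⟨Set.mem_univ _, hT x hx⟩⟩

/-- the main theorem on random divisors of the product of two lines -/
theorem main_bi (a b : Fin m → ℕ) (S : Finset ℕ) {ε η : ℝ} (hε : 0 < ε) (hη : 0 < η) :
    ∃ C : ℝ, 0 < C ∧ ∀ A : ℕ, 1 ≤ A →
      ∀ T : Finset (∀ j : Fin m, Fin (b j + 1) → Fin (a j + 1) → ℤ),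
      (∀ F ∈ T, F ∈ Bt a b A ∧ ∃ s t : Fin 2 → ℤ, (∃ v : Fin 2 → ℤ, ∑ i, v i * s i = 1) ∧
        (∃ u : Fin 2 → ℤ, ∑ i, u i * t i = 1) ∧ nrm s ≤ A ∧ (∀ j, ev2 (F j) s t ≠ 0) ∧
        N1 S (∏ j, ev2 (F j) s t) < Real.log (Pf a b A s t) -
          (2 + ε) * (Real.log (nrm s) + Real.log (nrm t)) - η * Real.log A) →
      (T.card : ℝ) ≤ C * (A : ℝ) ^ (-(η / 2)) * (Bt a b A).card := by
  classical
  set δ : ℝ := min (η / 2) (ε / 2) with hδ
  have hδ0 : 0 < δ := lt_min (by positivity) (by positivity)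
  obtain ⟨C1, hC1, h1⟩ := card_Bad2 a b S hδ0
  obtain ⟨C2, hC2, h2⟩ := sum_line (half_pos hε)
  refine ⟨C1 * (C2 * C2), by positivity, fun A hA T hT => ?_⟩
  have hA0 : (0 : ℝ) < A := by exact_mod_cast (show 0 < A by omega)
  have hA1 : (1 : ℝ) ≤ A := by exact_mod_cast hA
  choose! ps pt hps hpt hpA hp1 hp2 using fun F hF => (hT F hF).2
  set X1 : Finset (Fin 2 → ℤ) := T.image ps with hX1
  set X2 : Finset (Fin 2 → ℤ) := T.image pt with hX2
  set X0 : Finset ((Fin 2 → ℤ) × (Fin 2 → ℤ)) := T.image fun F => (ps F, pt F) with hX0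
  have hsub0 : X0 ⊆ X1 ×ˢ X2 := by
    intro x hx
    obtain ⟨F, hF, rfl⟩ := Finset.mem_image.1 hx
    exact Finset.mem_product.2 ⟨Finset.mem_image_of_mem _ hF, Finset.mem_image_of_mem _ hF⟩
  have hnz1 : ∀ x ∈ X1, nrm x ≠ 0 := by
    intro x hx
    obtain ⟨F, hF, rfl⟩ := Finset.mem_image.1 hx
    obtain ⟨v, hv⟩ := hps F hF
    exact (nrm_pos hv).ne'
  have hnz2 : ∀ x ∈ X2, nrm x ≠ 0 := by
    intro x hx
    obtain ⟨F, hF, rfl⟩ := Finset.mem_image.1 hx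
    obtain ⟨v, hv⟩ := hpt F hF
    exact (nrm_pos hv).ne'
  set τ : (Fin 2 → ℤ) × (Fin 2 → ℤ) → ℝ := fun x => Real.log (Pf a b A x.1 x.2) -
          (2 + ε) * (Real.log (nrm x.1) + Real.log (nrm x.2)) - η * Real.log A with hτ
  have hsub : T ⊆ X0.biUnion fun x => Bad2 a b S (τ x) A x.1 x.2 := by
    intro F hF
    rw [Finset.mem_biUnion]
    refine ⟨(ps F, pt F), Finset.mem_image_of_mem _ hF, ?_⟩
    unfold Bad2
    rw [Finset.mem_filter]
    exact ⟨(hT F hF).1, hp1 F hF, hp2 F hF⟩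
  have h3 : (T.card : ℝ) ≤ ∑ x ∈ X0, ((Bad2 a b S (τ x) A x.1 x.2).card : ℝ) := by
    have := (Finset.card_le_card hsub).trans Finset.card_biUnion_le
    exact_mod_cast this
  refine h3.trans ?_
  have h4 : ∀ x ∈ X0, ((Bad2 a b S (τ x) A x.1 x.2).card : ℝ) ≤
      C1 * (Bt a b A).card * (A : ℝ) ^ (-(η / 2)) *
        ((nrm x.1 : ℝ) ^ (-(2 + ε / 2)) * (nrm x.2 : ℝ) ^ (-(2 + ε / 2))) := by
    intro x hx
    obtain ⟨F, hF, rfl⟩ := Finset.mem_image.1 hx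
    obtain ⟨v, hv⟩ := hps F hF
    obtain ⟨u, hu⟩ := hpt F hF
    refine (h1 A hA (ps F) v (pt F) u hv hu (hpA F hF) _).trans ?_
    show C1 * (Bt a b A).card * Real.exp (τ (ps F, pt F)) * (A : ℝ) ^ δ *
          (nrm (ps F) : ℝ) ^ δ * (nrm (pt F) : ℝ) ^ δ * (Pf a b A (ps F) (pt F))⁻¹ ≤
      C1 * (Bt a b A).card * (A : ℝ) ^ (-(η / 2)) *
        ((nrm (ps F) : ℝ) ^ (-(2 + ε / 2)) * (nrm (pt F) : ℝ) ^ (-(2 + ε / 2)))
    have hs : 0 < nrm (ps F) := nrm_pos hv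
    have ht : 0 < nrm (pt F) := nrm_pos hu
    have hPf := Pf_pos a b hA hs ht
    have hs0 : (0 : ℝ) < nrm (ps F) := by exact_mod_cast hs
    have hs1 : (1 : ℝ) ≤ nrm (ps F) := by exact_mod_cast hs
    have ht0 : (0 : ℝ) < nrm (pt F) := by exact_mod_cast ht
    have ht1 : (1 : ℝ) ≤ nrm (pt F) := by exact_mod_cast ht
    have h5 : Real.exp (τ (ps F, pt F)) = Pf a b A (ps F) (pt F) *
        (nrm (ps F) : ℝ) ^ (-(2 + ε)) * (nrm (pt F) : ℝ) ^ (-(2 + ε)) * (A : ℝ) ^ (-η) := by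
      rw [Real.rpow_def_of_pos hs0, Real.rpow_def_of_pos ht0, Real.rpow_def_of_pos hA0]
      nth_rewrite 1 [← Real.exp_log hPf]
      rw [← Real.exp_add, ← Real.exp_add, ← Real.exp_add]
      congr 1
      rw [hτ]
      simp only
      ring
    rw [h5]
    have h6 : (A : ℝ) ^ (-η) * (A : ℝ) ^ δ ≤ (A : ℝ) ^ (-(η / 2)) := by
      rw [← Real.rpow_add hA0]
      refine Real.rpow_le_rpow_of_exponent_le hA1 ?_
      have := min_le_left (η / 2) (ε / 2)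
      rw [← hδ] at this; linarith
    have h7 : ∀ z : ℝ, 1 ≤ z → z ^ (-(2 + ε)) * z ^ δ ≤ z ^ (-(2 + ε / 2)) := by
      intro z hz
      rw [← Real.rpow_add (by linarith)]
      refine Real.rpow_le_rpow_of_exponent_le hz ?_
      have := min_le_right (η / 2) (ε / 2)
      rw [← hδ] at this; linarith
    have h8 : Pf a b A (ps F) (pt F) * (Pf a b A (ps F) (pt F))⁻¹ = 1 := mul_inv_cancel₀ hPf.ne'
    have h9 := h7 _ hs1
    have h10 := h7 _ ht1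
    calc C1 * (Bt a b A).card * (Pf a b A (ps F) (pt F) *
        (nrm (ps F) : ℝ) ^ (-(2 + ε)) * (nrm (pt F) : ℝ) ^ (-(2 + ε)) * (A : ℝ) ^ (-η)) *
          (A : ℝ) ^ δ * (nrm (ps F) : ℝ) ^ δ * (nrm (pt F) : ℝ) ^ δ *
          (Pf a b A (ps F) (pt F))⁻¹
        = C1 * (Bt a b A).card * ((A : ℝ) ^ (-η) * (A : ℝ) ^ δ) *
          (((nrm (ps F) : ℝ) ^ (-(2 + ε)) * (nrm (ps F) : ℝ) ^ δ) *
            ((nrm (pt F) : ℝ) ^ (-(2 + ε)) * (nrm (pt F) : ℝ) ^ δ)) *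
          (Pf a b A (ps F) (pt F) * (Pf a b A (ps F) (pt F))⁻¹) := by ring
      _ = C1 * (Bt a b A).card * ((A : ℝ) ^ (-η) * (A : ℝ) ^ δ) *
          (((nrm (ps F) : ℝ) ^ (-(2 + ε)) * (nrm (ps F) : ℝ) ^ δ) *
            ((nrm (pt F) : ℝ) ^ (-(2 + ε)) * (nrm (pt F) : ℝ) ^ δ)) := by rw [h8, mul_one]
      _ ≤ _ := by
          refine mul_le_mul (mul_le_mul_of_nonneg_left h6 (by positivity))
            (mul_le_mul h9 h10 (by positivity) (by positivity)) (by positivity) (by positivity)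
  refine (Finset.sum_le_sum h4).trans ?_
  rw [← Finset.mul_sum]
  have h5 : ∑ x ∈ X0, ((nrm x.1 : ℝ) ^ (-(2 + ε / 2)) * (nrm x.2 : ℝ) ^ (-(2 + ε / 2))) ≤
      C2 * C2 := by
    calc _ ≤ ∑ x ∈ X1 ×ˢ X2, ((nrm x.1 : ℝ) ^ (-(2 + ε / 2)) * (nrm x.2 : ℝ) ^ (-(2 + ε / 2))) :=
          Finset.sum_le_sum_of_subset_of_nonneg hsub0 fun _ _ _ => by positivity
      _ = (∑ x ∈ X1, (nrm x : ℝ) ^ (-(2 + ε / 2))) * ∑ x ∈ X2, (nrm x : ℝ) ^ (-(2 + ε / 2)) := by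
          rw [Finset.sum_product, Finset.sum_mul_sum]
      _ ≤ C2 * C2 := mul_le_mul (h2 X1 hnz1) (h2 X2 hnz2)
          (Finset.sum_nonneg fun _ _ => by positivity) hC2.le
  calc C1 * (Bt a b A).card * (A : ℝ) ^ (-(η / 2)) *
        ∑ x ∈ X0, ((nrm x.1 : ℝ) ^ (-(2 + ε / 2)) * (nrm x.2 : ℝ) ^ (-(2 + ε / 2)))
      ≤ C1 * (Bt a b A).card * (A : ℝ) ^ (-(η / 2)) * (C2 * C2) :=
        mul_le_mul_of_nonneg_left h5 (by positivity)
    _ = _ := by ring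

end Pool.Agent.Y731.RD
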