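import Pool.Agent.Y731.RD.Res

set_option autoImplicit false

/-!
Points of projective space cut out by linear equations with small coefficients.
-/

namespace Pool.Agent.Y731.RD

open Finset MvPolynomial

/-- the point with coordinates `x` is cut out by linear equations with integer coefficients of
absolute value at most `A` -/
def Cut {N : ℕ} (A : ℕ) (x : Fin (N + 1) → ℤ) : Prop :=
  ∀ y : Fin (N + 1) → ℚ,
    (∀ c : Fin (N + 1) → ℤ, (∀ j, |c j| ≤ A) → ∑ j, c j * x j = 0 → ∑ j, (c j : ℚ) * y j = 0) →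
      ∃ t : ℚ, ∀ j, y j = t * x j

/-- points of height at most `A` are cut out by linear equations with coefficients at most `A` -/
theorem cut_of_le {N : ℕ} {A : ℕ} {x : Fin (N + 1) → ℤ} (hx : x ≠ 0) (hA : ∀ j, |x j| ≤ A) :
    Cut A x := by
  obtain ⟨i, hi⟩ := Function.ne_iff.1 hx
  simp only [Pi.zero_apply] at hi
  intro y hy
  have hi' : (x i : ℚ) ≠ 0 := by exact_mod_cast hi
  refine ⟨y i / x i, fun j => ?_⟩
  by_cases hj : j = i
  · subst hj; field_simp
  have h1 := hy (Pi.single j (x i) - Pi.single i (x j)) ?_ ?_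
  · have h2 : ∑ l, (((Pi.single j (x i) - Pi.single i (x j) : Fin (N + 1) → ℤ) l : ℤ) : ℚ) * y l =
        x i * y j - x j * y i := by
      have h3 : ∀ l, (((Pi.single j (x i) - Pi.single i (x j) : Fin (N + 1) → ℤ) l : ℤ) : ℚ) * y l =
          (if l = j then (x i : ℚ) * y l else 0) - (if l = i then (x j : ℚ) * y l else 0) := by
        intro l
        rw [Pi.sub_apply, Pi.single_apply, Pi.single_apply]
        split_ifs <;> push_cast <;> ring
      rw [Finset.sum_congr rfl fun l _ => h3 l, Finset.sum_sub_distrib]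
      simp
    rw [h2] at h1
    field_simp
    linarith
  · intro l
    rw [Pi.sub_apply, Pi.single_apply, Pi.single_apply]
    by_cases h1 : l = j
    · have h2 : ¬ l = i := fun h => hj (h1 ▸ h)
      rw [if_pos h1, if_neg h2, sub_zero]; exact hA i
    · rw [if_neg h1]
      by_cases h2 : l = i
      · rw [if_pos h2, zero_sub, abs_neg]; exact hA j
      · rw [if_neg h2]; simp
  · have h3 : ∀ l, (Pi.single j (x i) - Pi.single i (x j) : Fin (N + 1) → ℤ) l * x l =
        (if l = j then x i * x l else 0) - (if l = i then x j * x l else 0) := by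
      intro l
      rw [Pi.sub_apply, Pi.single_apply, Pi.single_apply]
      split_ifs <;> ring
    rw [Finset.sum_congr rfl fun l _ => h3 l, Finset.sum_sub_distrib]
    simp
    ring

/-- every residue is a value of a linear form with small coefficients -/
theorem cut_residue {N : ℕ} {A : ℕ} {x : Fin (N + 1) → ℤ} (hc : Cut A x) (v : Fin (N + 1) → ℤ)
    (hv : ∑ i, v i * x i = 1) (i₀ : Fin (N + 1)) (hx : x i₀ ≠ 0) (z : ℤ) :
    ∃ l : Fin (N + 1) → ℤ, (∀ j, |l j| ≤ (((N + 1) * (A + 1) : ℕ) : ℤ)) ∧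
      x i₀ ∣ ∑ j, l j * x j - z := by
  classical
  set T : Set (Fin (N + 1) → ℚ) := {w | ∃ c : Fin (N + 1) → ℤ, (∀ j, |c j| ≤ (A + 1 : ℕ)) ∧
    x i₀ ∣ ∑ j, c j * x j ∧ w = fun j => (c j : ℚ)} with hT
  have hspan : Submodule.span ℚ T = ⊤ := by
    by_contra hne
    obtain ⟨f, hf0, hf⟩ := Submodule.exists_le_ker_of_lt_top _ (lt_top_iff_ne_top.2 hne)
    -- the functional is a vector
    have hfy : ∀ w : Fin (N + 1) → ℚ, f w = ∑ j, w j * f (Pi.single j 1) := by
      intro w
      conv_lhs => rw [pi_eq_sum_univ' w, map_sum]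
      refine Finset.sum_congr rfl fun j _ => ?_
      rw [map_smul, smul_eq_mul]
    obtain ⟨t, ht⟩ := hc (fun j => f (Pi.single j 1)) (by
      intro c hcA hcx
      have h1 : (fun j => (c j : ℚ)) ∈ Submodule.span ℚ T := Submodule.subset_span
        ⟨c, fun j => (hcA j).trans (by push_cast; linarith), by rw [hcx]; exact dvd_zero _, rfl⟩
      have h2 := hf h1
      rw [LinearMap.mem_ker, hfy] at h2
      exact h2)
    have h3 : (fun j => ((Pi.single i₀ 1 : Fin (N + 1) → ℤ) j : ℚ)) ∈ Submodule.span ℚ T := by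
      refine Submodule.subset_span ⟨Pi.single i₀ 1, fun j => ?_, ?_, rfl⟩
      · rw [Pi.single_apply]; split_ifs
        · simp
        · simp; positivity
      · refine Dvd.intro_left 1 ?_
        simp [Pi.single_apply]
    have h4 := hf h3
    rw [LinearMap.mem_ker, hfy] at h4
    have h5 : ∑ j, ((Pi.single i₀ 1 : Fin (N + 1) → ℤ) j : ℚ) * f (Pi.single j 1) =
        f (Pi.single i₀ 1) := by
      rw [Finset.sum_eq_single i₀]
      · simp
      · intro j _ hj; simp [Pi.single_apply, hj]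
      · simp
    rw [h5, ht i₀] at h4
    have hx' : (x i₀ : ℚ) ≠ 0 := by exact_mod_cast hx
    have h6 : t = 0 := by
      rcases mul_eq_zero.1 h4 with h | h
      · exact h
      · exact absurd h hx'
    refine hf0 (LinearMap.ext fun w => ?_)
    rw [hfy w, LinearMap.zero_apply]
    refine Finset.sum_eq_zero fun j _ => ?_
    rw [ht j, h6]; ring
  obtain ⟨b, hbT, hbspan, hbli⟩ := exists_linearIndependent ℚ T
  have hbfin : b.Finite := hbli.setFinite
  have hft : Fintype b := hbfin.fintype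
  have hcard : Fintype.card b ≤ N + 1 := by
    have := hbli.fintype_card_le_finrank
    simpa using this
  have hw : (fun j => ((z * v j : ℤ) : ℚ)) ∈ Submodule.span ℚ (Set.range ((↑) : b → Fin (N + 1) → ℚ)) := by
    rw [Subtype.range_coe, hbspan, hspan]; exact Submodule.mem_top
  obtain ⟨τ, hτ⟩ := (Submodule.mem_span_range_iff_exists_fun ℚ).1 hw
  choose c hcA hcx hcw using fun β : b => hbT β.2
  refine ⟨fun j => z * v j - ∑ β : b, ⌊τ β⌋ * c β j, fun j => ?_, ?_⟩
  · have h1 : ((z * v j - ∑ β : b, ⌊τ β⌋ * c β j : ℤ) : ℚ) = ∑ β : b, (τ β - ⌊τ β⌋) * c β j := by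
      have h2 := congrFun hτ j
      simp only [Finset.sum_apply, Pi.smul_apply, smul_eq_mul] at h2
      have h3 : ∀ β : b, τ β * (β : Fin (N + 1) → ℚ) j = τ β * c β j := by
        intro β
        have h4 := congrFun (hcw β) j
        rw [h4]
      rw [Finset.sum_congr rfl fun β _ => h3 β] at h2
      push_cast at h2 ⊢
      rw [← h2, ← Finset.sum_sub_distrib]
      refine Finset.sum_congr rfl fun β _ => by ring
    have h2 : |((z * v j - ∑ β : b, ⌊τ β⌋ * c β j : ℤ) : ℚ)| ≤ ((N + 1) * (A + 1) : ℕ) := by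
      rw [h1]
      refine (Finset.abs_sum_le_sum_abs _ _).trans ?_
      have h3 : ∀ β ∈ (Finset.univ : Finset b), |(τ β - ⌊τ β⌋) * (c β j : ℚ)| ≤ ((A + 1 : ℕ) : ℚ) := by
        intro β _
        rw [abs_mul]
        have h4 : |τ β - ⌊τ β⌋| ≤ 1 := by
          rw [abs_of_nonneg (by linarith [Int.floor_le (τ β)])]
          linarith [Int.lt_floor_add_one (τ β)]
        have h5 : |(c β j : ℚ)| ≤ ((A + 1 : ℕ) : ℚ) := by
          have := hcA β j
          exact_mod_cast this
        calc |τ β - ⌊τ β⌋| * |(c β j : ℚ)| ≤ 1 * ((A + 1 : ℕ) : ℚ) :=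
              mul_le_mul h4 h5 (abs_nonneg _) zero_le_one
          _ = _ := one_mul _
      refine (Finset.sum_le_sum h3).trans ?_
      rw [Finset.sum_const, Finset.card_univ, nsmul_eq_mul]
      push_cast
      have h6 : (Fintype.card b : ℚ) ≤ N + 1 := by exact_mod_cast hcard
      exact mul_le_mul_of_nonneg_right h6 (by positivity)
    exact_mod_cast h2
  · have h1 : ∑ j, (z * v j - ∑ β : b, ⌊τ β⌋ * c β j) * x j - z =
        - ∑ β : b, ⌊τ β⌋ * ∑ j, c β j * x j := by
      have h2 : ∀ j, (z * v j - ∑ β : b, ⌊τ β⌋ * c β j) * x j =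
          z * (v j * x j) - ∑ β : b, ⌊τ β⌋ * (c β j * x j) := by
        intro j
        rw [sub_mul, Finset.sum_mul]
        congr 1
        · ring
        · exact Finset.sum_congr rfl fun β _ => by ring
      rw [Finset.sum_congr rfl fun j _ => h2 j, Finset.sum_sub_distrib, ← Finset.mul_sum, hv,
        Finset.sum_comm]
      simp only [Finset.mul_sum]
      ring
    rw [h1]
    exact (Finset.dvd_sum fun β _ => Dvd.dvd.mul_left (hcx β) _).neg_right

/-- a set of forms of degree `k + 1` with distinct residues, vectors cut out by small equations -/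
theorem res_cut {N : ℕ} {A : ℕ} {x : Fin (N + 1) → ℤ} (hc : Cut A x) (v : Fin (N + 1) → ℤ)
    (hv : ∑ i, v i * x i = 1) (i₀ : Fin (N + 1)) (hx : x i₀ ≠ 0) (k : ℕ) :
    ∃ U : Finset (MvPolynomial (Fin (N + 1)) ℤ),
      (∀ F ∈ U, F.IsHomogeneous (k + 1) ∧
        ∀ α, |coeff α F| ≤ (((N + 1) * ((N + 1) * ((N + 1) * (A + 1))) : ℕ) : ℤ)) ∧
      (∀ F ∈ U, ∀ G ∈ U, x i₀ ∣ MvPolynomial.eval x F - MvPolynomial.eval x G → F = G) ∧
      (x i₀).natAbs ≤ U.card := by
  classical
  obtain ⟨u, hu⟩ := pow_gen x v hv k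
  choose l hlA hlx using fun z : ℤ => cut_residue hc v hv i₀ hx z
  set h : ℤ → MvPolynomial (Fin (N + 1)) ℤ :=
    fun z => ∑ j, (∑ i, C (l (z * u j) i) * X i) * X j ^ k with hh
  have heval : ∀ z, MvPolynomial.eval x (h z) = ∑ j, (∑ i, l (z * u j) i * x i) * x j ^ k := by
    intro z; rw [hh]; simp [map_sum]
  have hmod : ∀ z, x i₀ ∣ MvPolynomial.eval x (h z) - z := by
    intro z
    have h1 : MvPolynomial.eval x (h z) - z =
        ∑ j, (∑ i, l (z * u j) i * x i - z * u j) * x j ^ k := by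
      rw [heval]
      have h2 : ∀ j, (∑ i, l (z * u j) i * x i - z * u j) * x j ^ k =
          (∑ i, l (z * u j) i * x i) * x j ^ k - z * (u j * x j ^ k) := by
        intro j; ring
      rw [Finset.sum_congr rfl fun j _ => h2 j, Finset.sum_sub_distrib, ← Finset.mul_sum, hu,
        mul_one]
    rw [h1]
    exact Finset.dvd_sum fun j _ => Dvd.dvd.mul_right (hlx _) _
  have hinj : ∀ a ∈ Finset.range (x i₀).natAbs, ∀ b ∈ Finset.range (x i₀).natAbs,
      x i₀ ∣ MvPolynomial.eval x (h (a : ℕ)) - MvPolynomial.eval x (h (b : ℕ)) → a = b := by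
    intro a ha b hb hd
    rw [Finset.mem_range] at ha hb
    have h1 : x i₀ ∣ (a : ℤ) - b := by
      have h2 := dvd_add (dvd_sub hd (hmod a)) (hmod b)
      have h3 : MvPolynomial.eval x (h (a : ℕ)) - MvPolynomial.eval x (h (b : ℕ)) -
          (MvPolynomial.eval x (h (a : ℕ)) - (a : ℤ)) +
          (MvPolynomial.eval x (h (b : ℕ)) - (b : ℤ)) = (a : ℤ) - b := by ring
      rwa [h3] at h2
    have h2 : (x i₀).natAbs ∣ ((a : ℤ) - b).natAbs := Int.natAbs_dvd_natAbs.2 h1
    by_contra hne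
    have h3 := Nat.le_of_dvd (by omega) h2
    omega
  refine ⟨(Finset.range (x i₀).natAbs).image fun a : ℕ => h a, ?_, ?_, ?_⟩
  · intro F hF
    obtain ⟨a, ha, rfl⟩ := Finset.mem_image.1 hF
    refine ⟨?_, fun α => ?_⟩
    · rw [hh]
      refine IsHomogeneous.sum _ _ _ fun j _ => ?_
      have h1 : (∑ i, C (l ((a : ℤ) * u j) i) * X i : MvPolynomial (Fin (N + 1)) ℤ).IsHomogeneous
          1 := by
        refine IsHomogeneous.sum _ _ _ fun i _ => ?_
        have := (isHomogeneous_C (Fin (N + 1)) (l ((a : ℤ) * u j) i)).mul (isHomogeneous_X ℤ i)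
        simpa using this
      have h2 := h1.mul ((isHomogeneous_X ℤ j).pow k)
      rwa [show 1 + 1 * k = k + 1 by ring] at h2
    · rw [hh]
      simp only [coeff_sum]
      refine (Finset.abs_sum_le_sum_abs _ _).trans ?_
      have h3 : ∀ j ∈ (Finset.univ : Finset (Fin (N + 1))),
          |coeff α ((∑ i, C (l ((a : ℤ) * u j) i) * X i) * (X j : MvPolynomial (Fin (N + 1)) ℤ) ^ k)|
            ≤ (((N + 1) * ((N + 1) * (A + 1)) : ℕ) : ℤ) := by
        intro j _
        rw [Finset.sum_mul]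
        simp only [coeff_sum]
        refine (Finset.abs_sum_le_sum_abs _ _).trans ?_
        have h4 : ∀ i ∈ (Finset.univ : Finset (Fin (N + 1))),
            |coeff α (C (l ((a : ℤ) * u j) i) * X i * (X j : MvPolynomial (Fin (N + 1)) ℤ) ^ k)|
              ≤ (((N + 1) * (A + 1) : ℕ) : ℤ) := by
          intro i _
          rw [mul_assoc, coeff_C_mul, abs_mul]
          have h5 : |coeff α (X i * (X j : MvPolynomial (Fin (N + 1)) ℤ) ^ k)| ≤ 1 := by
            rw [coeff_X_mul']
            split_ifs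
            · rw [coeff_X_pow]; split_ifs <;> simp
            · simp
          calc |l ((a : ℤ) * u j) i| * |coeff α (X i * (X j : MvPolynomial (Fin (N + 1)) ℤ) ^ k)|
              ≤ (((N + 1) * (A + 1) : ℕ) : ℤ) * 1 :=
                mul_le_mul (hlA _ i) h5 (abs_nonneg _) (by positivity)
            _ = _ := mul_one _
        refine (Finset.sum_le_sum h4).trans ?_
        rw [Finset.sum_const, Finset.card_univ, Fintype.card_fin, nsmul_eq_mul]
        push_cast; exact le_rfl
      refine (Finset.sum_le_sum h3).trans ?_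
      rw [Finset.sum_const, Finset.card_univ, Fintype.card_fin, nsmul_eq_mul]
      push_cast; exact le_rfl
  · intro F hF G hG hd
    obtain ⟨a, ha, rfl⟩ := Finset.mem_image.1 hF
    obtain ⟨b, hb, rfl⟩ := Finset.mem_image.1 hG
    rw [hinj a ha b hb hd]
  · rw [Finset.card_image_of_injOn]
    · simp
    · intro a ha b hb he
      refine hinj a (Finset.mem_coe.1 ha) b (Finset.mem_coe.1 hb) ?_
      have he' : h (a : ℕ) = h (b : ℕ) := he
      rw [he', sub_self]
      exact dvd_zero _

/-- the number of residues modulo the norm `s` controlled by coefficients at most `A` -/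
noncomputable def lev {N : ℕ} (A : ℕ) (x : Fin (N + 1) → ℤ) (s : ℕ) : ℕ :=
  open Classical in if Cut A x then s else min s A

/-- many forms of degree `k` with small coefficients and distinct values -/
theorem many_values (N k : ℕ) : ∃ M : ℕ, ∀ A : ℕ, 1 ≤ A → ∀ (x v : Fin (N + 1) → ℤ),
    ∑ i, v i * x i = 1 → ∀ i₀, x i₀ ≠ 0 →
    ∃ V : Finset (MvPolynomial (Fin (N + 1)) ℤ),
      (∀ F ∈ V, F.IsHomogeneous k ∧ ∀ α, |coeff α F| ≤ ((M * A : ℕ) : ℤ)) ∧
      Set.InjOn (fun F : MvPolynomial (Fin (N + 1)) ℤ => MvPolynomial.eval x F)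
        (V : Set (MvPolynomial (Fin (N + 1)) ℤ)) ∧
      A * (lev A x (x i₀).natAbs) ^ k ≤ V.card := by
  classical
  induction k with
  | zero =>
    refine ⟨1, fun A hA x v hv i₀ hx => ?_⟩
    refine ⟨(Finset.range (A + 1)).image fun a : ℕ => (C (a : ℤ) : MvPolynomial (Fin (N + 1)) ℤ),
      ?_, ?_, ?_⟩
    · intro F hF
      obtain ⟨a, ha, rfl⟩ := Finset.mem_image.1 hF
      refine ⟨isHomogeneous_C _ _, fun α => ?_⟩
      rw [Finset.mem_range] at ha
      rw [coeff_C]
      split_ifs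
      · rw [abs_of_nonneg (by positivity)]; push_cast; omega
      · simp
    · intro F hF G hG hFG
      obtain ⟨a, ha, rfl⟩ := Finset.mem_image.1 (Finset.mem_coe.1 hF)
      obtain ⟨b, hb, rfl⟩ := Finset.mem_image.1 (Finset.mem_coe.1 hG)
      simp only [eval_C] at hFG
      rw [hFG]
    · rw [Finset.card_image_of_injective _ (fun a b h => by
        have := C_injective (Fin (N + 1)) ℤ h; exact_mod_cast this)]
      simp
  | succ k ih =>
    obtain ⟨M, hM⟩ := ih
    refine ⟨M + (N + 1) * ((N + 1) * ((N + 1) * 2)), fun A hA x v hv i₀ hx => ?_⟩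
    obtain ⟨V, hV, hVi, hVc⟩ := hM A hA x v hv i₀ hx
    have hU : ∃ U : Finset (MvPolynomial (Fin (N + 1)) ℤ),
        (∀ F ∈ U, F.IsHomogeneous (k + 1) ∧
          ∀ α, |coeff α F| ≤ (((N + 1) * ((N + 1) * ((N + 1) * 2)) * A : ℕ) : ℤ)) ∧
        (∀ F ∈ U, ∀ G ∈ U, x i₀ ∣ MvPolynomial.eval x F - MvPolynomial.eval x G → F = G) ∧
        lev A x (x i₀).natAbs ≤ U.card := by
      by_cases hc : Cut A x
      · obtain ⟨U, h1, h2, h3⟩ := res_cut hc v hv i₀ hx k
        refine ⟨U, fun F hF => ⟨(h1 F hF).1, fun α => ((h1 F hF).2 α).trans ?_⟩, h2, ?_⟩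
        · norm_cast
          have h4 : A + 1 ≤ 2 * A := by omega
          calc (N + 1) * ((N + 1) * ((N + 1) * (A + 1))) ≤
                (N + 1) * ((N + 1) * ((N + 1) * (2 * A))) := by gcongr
            _ = _ := by ring
        · unfold lev; rw [if_pos hc]; exact h3
      · obtain ⟨U, h1, h2, h3⟩ := res_small x v hv i₀ hx A k
        refine ⟨U, fun F hF => ⟨(h1 F hF).1, fun α => ((h1 F hF).2 α).trans ?_⟩, h2, ?_⟩
        · norm_cast
          have h4 : (N + 1) * 1 ≤ (N + 1) * ((N + 1) * ((N + 1) * 2)) := by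
            refine Nat.mul_le_mul_left _ ?_
            nlinarith [Nat.zero_le N]
          calc (N + 1) * A = (N + 1) * 1 * A := by ring
            _ ≤ _ := Nat.mul_le_mul_right _ h4
        · unfold lev; rw [if_neg hc]
          exact (min_le_min_left _ (Nat.le_succ A)).trans h3
    obtain ⟨U, hU1, hU2, hU3⟩ := hU
    obtain ⟨W, hW1, hW2, hW3⟩ := step x i₀ hx V U hV hVi hVc hU1 hU2 hU3
    refine ⟨W, fun F hF => ⟨(hW1 F hF).1, fun α => ((hW1 F hF).2 α).trans ?_⟩, hW2, ?_⟩
    · have h4 : M * A + (N + 1) * ((N + 1) * ((N + 1) * 2)) * A =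
          (M + (N + 1) * ((N + 1) * ((N + 1) * 2))) * A := (add_mul _ _ _).symm
      rw [h4]
    · rw [pow_succ, ← mul_assoc]; exact hW3

end Pool.Agent.Y731.RD
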