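import Mathlib

set_option autoImplicit false

/-!
A convergent sum over a set of integer vectors of polynomial growth.
-/

namespace Pool.Agent.Y731.RD

open Finset

/-- the sup norm -/
def nrm {m : ℕ} (x : Fin m → ℤ) : ℕ := Finset.univ.sup fun i => (x i).natAbs

theorem sum_nrm_le {m : ℕ} (P : Set (Fin m → ℤ)) {a C₀ ε : ℝ} (ha : 0 ≤ a) (hε : 0 < ε)
    (hC : 0 ≤ C₀) (hP : ∀ B : ℕ, 1 ≤ B → ∀ T : Finset (Fin m → ℤ), (∀ x ∈ T, x ∈ P ∧ nrm x ≤ B) →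
      (T.card : ℝ) ≤ C₀ * (B : ℝ) ^ a) :
    ∃ C : ℝ, 0 < C ∧ ∀ T : Finset (Fin m → ℤ), (∀ x ∈ T, x ∈ P ∧ nrm x ≠ 0) →
      ∑ x ∈ T, (nrm x : ℝ) ^ (-(a + ε)) ≤ C := by
  classical
  have hr1 : (2 : ℝ) ^ (-ε) < 1 := Real.rpow_lt_one_of_one_lt_of_neg (by norm_num) (by linarith)
  have hr0 : (0 : ℝ) < (2 : ℝ) ^ (-ε) := by positivity
  have hsum := summable_geometric_of_lt_one hr0.le hr1
  set C : ℝ := C₀ * 2 ^ a * ∑' i : ℕ, ((2 : ℝ) ^ (-ε)) ^ i with hCdef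
  have hC0 : 0 ≤ C := by
    have : 0 ≤ ∑' i : ℕ, ((2 : ℝ) ^ (-ε)) ^ i := tsum_nonneg fun i => by positivity
    positivity
  refine ⟨C + 1, by linarith, fun T hT => ?_⟩
  have h1 : ∑ x ∈ T, (nrm x : ℝ) ^ (-(a + ε)) =
      ∑ i ∈ T.image (fun x => Nat.log 2 (nrm x)),
        ∑ x ∈ T.filter (fun x => Nat.log 2 (nrm x) = i), (nrm x : ℝ) ^ (-(a + ε)) := by
    rw [Finset.sum_fiberwise_of_maps_to]
    intro x hx
    exact Finset.mem_image_of_mem _ hx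
  have h2 : ∀ i ∈ T.image (fun x => Nat.log 2 (nrm x)),
      ∑ x ∈ T.filter (fun x => Nat.log 2 (nrm x) = i), (nrm x : ℝ) ^ (-(a + ε)) ≤
        C₀ * 2 ^ a * ((2 : ℝ) ^ (-ε)) ^ i := by
    intro i _
    have h3 : ∀ x ∈ T.filter (fun x => Nat.log 2 (nrm x) = i),
        (nrm x : ℝ) ^ (-(a + ε)) ≤ ((2 : ℝ) ^ i) ^ (-(a + ε)) := by
      intro x hx
      rw [Finset.mem_filter] at hx
      have h4 : 2 ^ i ≤ nrm x := by
        rw [← hx.2]; exact Nat.pow_log_le_self 2 (hT x hx.1).2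
      have h5 : ((2 : ℝ) ^ i) ≤ nrm x := by exact_mod_cast h4
      exact Real.rpow_le_rpow_of_nonpos (by positivity) h5 (by linarith)
    have h6 : ((T.filter (fun x => Nat.log 2 (nrm x) = i)).card : ℝ) ≤
        C₀ * ((2 ^ (i + 1) : ℕ) : ℝ) ^ a := by
      refine hP _ (Nat.one_le_two_pow) _ fun x hx => ?_
      rw [Finset.mem_filter] at hx
      refine ⟨(hT x hx.1).1, ?_⟩
      have := Nat.lt_pow_succ_log_self (b := 2) (by norm_num) (nrm x)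
      rw [hx.2] at this
      exact this.le
    calc ∑ x ∈ T.filter (fun x => Nat.log 2 (nrm x) = i), (nrm x : ℝ) ^ (-(a + ε))
        ≤ (T.filter (fun x => Nat.log 2 (nrm x) = i)).card • ((2 : ℝ) ^ i) ^ (-(a + ε)) :=
          Finset.sum_le_card_nsmul _ _ _ h3
      _ = ((T.filter (fun x => Nat.log 2 (nrm x) = i)).card : ℝ) * ((2 : ℝ) ^ i) ^ (-(a + ε)) := by
          rw [nsmul_eq_mul]
      _ ≤ C₀ * ((2 ^ (i + 1) : ℕ) : ℝ) ^ a * ((2 : ℝ) ^ i) ^ (-(a + ε)) :=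
          mul_le_mul_of_nonneg_right h6 (by positivity)
      _ = C₀ * 2 ^ a * ((2 : ℝ) ^ (-ε)) ^ i := by
          push_cast
          rw [← Real.rpow_natCast 2 (i + 1), ← Real.rpow_natCast 2 i,
            ← Real.rpow_natCast ((2 : ℝ) ^ (-ε)) i, ← Real.rpow_mul (by norm_num),
            ← Real.rpow_mul (by norm_num), ← Real.rpow_mul (by norm_num), mul_assoc, mul_assoc,
            ← Real.rpow_add (by norm_num), ← Real.rpow_add (by norm_num)]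
          congr 2
          push_cast; ring
  rw [h1]
  calc _ ≤ ∑ i ∈ T.image (fun x => Nat.log 2 (nrm x)), C₀ * 2 ^ a * ((2 : ℝ) ^ (-ε)) ^ i :=
        Finset.sum_le_sum h2
    _ = C₀ * 2 ^ a * ∑ i ∈ T.image (fun x => Nat.log 2 (nrm x)), ((2 : ℝ) ^ (-ε)) ^ i := by
        rw [Finset.mul_sum]
    _ ≤ C := by
        rw [hCdef]
        refine mul_le_mul_of_nonneg_left ?_ (by positivity)
        exact hsum.sum_le_tsum _ (fun i _ => by positivity)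
    _ ≤ C + 1 := by linarith

end Pool.Agent.Y731.RD
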