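import Pool.Agent.Y731.RD.Main

set_option autoImplicit false

/-!
The main theorem for sets of points given by their growth, in terms of cardinalities of sets.
-/

namespace Pool.Agent.Y731.RD

open Finset MvPolynomial Pool.Agent.H813R3.Voj

theorem bezout {m : ℕ} (x : Fin m → ℤ) (hx : ∀ d : ℤ, (∀ i, d ∣ x i) → IsUnit d) :
    ∃ v : Fin m → ℤ, ∑ i, v i * x i = 1 := by
  have h1 : Ideal.span (Set.range x) = ⊤ := by
    obtain ⟨d, hd⟩ := (IsPrincipalIdealRing.principal (Ideal.span (Set.range x))).principal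
    have h2 : IsUnit d := by
      refine hx d fun i => ?_
      have h3 : x i ∈ Ideal.span (Set.range x) := Ideal.subset_span ⟨i, rfl⟩
      rw [hd] at h3
      exact Ideal.mem_span_singleton.1 h3
    rw [hd]
    exact Ideal.span_singleton_eq_top.2 h2
  have h2 : (1 : ℤ) ∈ Ideal.span (Set.range x) := by rw [h1]; exact Submodule.mem_top
  obtain ⟨c, hc⟩ := (Ideal.mem_span_range_iff_exists_fun).1 h2
  exact ⟨c, hc⟩

theorem finite_nrm {m : ℕ} (B : ℕ) : {x : Fin m → ℤ | nrm x ≤ B}.Finite := by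
  classical
  refine Set.Finite.subset (Finset.finite_toSet (Fintype.piFinset fun _ : Fin m =>
    Finset.Icc (-(B : ℤ)) B)) fun x hx => ?_
  rw [Finset.mem_coe, Fintype.mem_piFinset]
  intro i
  rw [Finset.mem_Icc]
  have h1 : (x i).natAbs ≤ B := (le_nrm x i).trans hx
  omega

theorem growth_univ (m : ℕ) (B : ℕ) (hB : 1 ≤ B) :
    ({x : Fin m → ℤ | nrm x ≤ B}.ncard : ℝ) ≤ 3 ^ m * (B : ℝ) ^ (m : ℝ) := by
  classical
  have h1 : {x : Fin m → ℤ | nrm x ≤ B} ⊆ ((Fintype.piFinset fun _ : Fin m =>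
    Finset.Icc (-(B : ℤ)) B : Finset (Fin m → ℤ)) : Set (Fin m → ℤ)) := by
    intro x hx
    rw [Finset.mem_coe, Fintype.mem_piFinset]
    intro i
    rw [Finset.mem_Icc]
    have h1 : (x i).natAbs ≤ B := (le_nrm x i).trans hx
    omega
  have h2 := Set.ncard_le_ncard h1 (Finset.finite_toSet _)
  rw [Set.ncard_coe_finset, Fintype.card_piFinset] at h2
  simp only [Int.card_Icc, Finset.prod_const, Finset.card_univ, Fintype.card_fin] at h2
  have h3 : ((B : ℤ) + 1 - -(B : ℤ)).toNat ≤ 3 * B := by omega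
  have h4 : {x : Fin m → ℤ | nrm x ≤ B}.ncard ≤ (3 * B) ^ m := h2.trans (Nat.pow_le_pow_left h3 m)
  rw [Real.rpow_natCast, ← mul_pow]
  exact_mod_cast h4

theorem main_set (N : ℕ) {r q : ℕ} (e : Fin r → ℕ) (k : Fin q → ℕ) (S : Finset ℕ)
    (P : Set (Fin (N + 1) → ℤ)) {a C₀ : ℝ} (ha : 0 ≤ a)
    (hP : ∀ B : ℕ, 1 ≤ B → ({x ∈ P | nrm x ≤ B}.ncard : ℝ) ≤ C₀ * (B : ℝ) ^ a)
    {ε η : ℝ} (hε : 0 < ε) (hη : 0 < η) :
    ∃ C : ℝ, ∀ A : ℕ, 1 ≤ A →
      ({G : (Fin r → MvPolynomial (Fin (N + 1)) ℤ) × (Fin q → MvPolynomial (Fin (N + 1)) ℤ) |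
        ((∀ i, (G.1 i).IsHomogeneous (e i) ∧ ∀ α, |coeff α (G.1 i)| ≤ (A : ℤ)) ∧
          ∀ j, (G.2 j).IsHomogeneous (k j) ∧ ∀ α, |coeff α (G.2 j)| ≤ (A : ℤ)) ∧
        ∃ x ∈ P, (∀ d : ℤ, (∀ i, d ∣ x i) → IsUnit d) ∧
          (∀ i, MvPolynomial.eval x (G.1 i) = 0) ∧ (∀ j, MvPolynomial.eval x (G.2 j) ≠ 0) ∧
          ((Cut A x ∧ ∑ p ∈ (∏ j, MvPolynomial.eval x (G.2 j)).natAbs.primeFactors \ S,
              Real.log p < (∑ j, (k j : ℝ) + ∑ i, (e i : ℝ) - a - ε) * Real.log (nrm x) +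
                ((q : ℝ) + r - η) * Real.log A) ∨
            (¬ Cut A x ∧ ∑ p ∈ (∏ j, MvPolynomial.eval x (G.2 j)).natAbs.primeFactors \ S,
              Real.log p < (∑ j, (k j : ℝ) + ∑ i, (e i : ℝ) + q + r - η) * Real.log A -
                (a + ε) * Real.log (nrm x)))}.ncard : ℝ) ≤
      C * (A : ℝ) ^ (-(η / 2)) *
        ({G : (Fin r → MvPolynomial (Fin (N + 1)) ℤ) × (Fin q → MvPolynomial (Fin (N + 1)) ℤ) |
        (∀ i, (G.1 i).IsHomogeneous (e i) ∧ ∀ α, |coeff α (G.1 i)| ≤ (A : ℤ)) ∧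
          ∀ j, (G.2 j).IsHomogeneous (k j) ∧ ∀ α, |coeff α (G.2 j)| ≤ (A : ℤ)}.ncard : ℝ) := by
  classical
  have hC₀ : 0 ≤ C₀ := by
    have h1 := hP 1 le_rfl
    rw [Nat.cast_one, Real.one_rpow, mul_one] at h1
    exact le_trans (Nat.cast_nonneg _) h1
  obtain ⟨C, hC, h⟩ := main N e k S P ha hC₀ (fun B hB T hT => by
    refine le_trans ?_ (hP B hB)
    have h1 : (T : Set (Fin (N + 1) → ℤ)) ⊆ {x ∈ P | nrm x ≤ B} := fun x hx => hT x hx
    have h2 := Set.ncard_le_ncard h1 ((finite_nrm B).subset fun x hx => hx.2)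
    rw [Set.ncard_coe_finset] at h2
    exact_mod_cast h2) hε hη
  refine ⟨C, fun A hA => ?_⟩
  have hPr : {G : (Fin r → MvPolynomial (Fin (N + 1)) ℤ) ×
      (Fin q → MvPolynomial (Fin (N + 1)) ℤ) |
        (∀ i, (G.1 i).IsHomogeneous (e i) ∧ ∀ α, |coeff α (G.1 i)| ≤ (A : ℤ)) ∧
          ∀ j, (G.2 j).IsHomogeneous (k j) ∧ ∀ α, |coeff α (G.2 j)| ≤ (A : ℤ)} =
      (Pr N e k A : Set _) := by
    ext G
    rw [Finset.mem_coe]
    unfold Pr
    rw [Finset.mem_product, Fintype.mem_piFinset, Fintype.mem_piFinset, Set.mem_ofPred_eq]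
    simp only [mem_Fm]
  rw [hPr, Set.ncard_coe_finset]
  set Bd := {G : (Fin r → MvPolynomial (Fin (N + 1)) ℤ) ×
      (Fin q → MvPolynomial (Fin (N + 1)) ℤ) |
        ((∀ i, (G.1 i).IsHomogeneous (e i) ∧ ∀ α, |coeff α (G.1 i)| ≤ (A : ℤ)) ∧
          ∀ j, (G.2 j).IsHomogeneous (k j) ∧ ∀ α, |coeff α (G.2 j)| ≤ (A : ℤ)) ∧
        ∃ x ∈ P, (∀ d : ℤ, (∀ i, d ∣ x i) → IsUnit d) ∧
          (∀ i, MvPolynomial.eval x (G.1 i) = 0) ∧ (∀ j, MvPolynomial.eval x (G.2 j) ≠ 0) ∧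
          ((Cut A x ∧ ∑ p ∈ (∏ j, MvPolynomial.eval x (G.2 j)).natAbs.primeFactors \ S,
              Real.log p < (∑ j, (k j : ℝ) + ∑ i, (e i : ℝ) - a - ε) * Real.log (nrm x) +
                ((q : ℝ) + r - η) * Real.log A) ∨
            (¬ Cut A x ∧ ∑ p ∈ (∏ j, MvPolynomial.eval x (G.2 j)).natAbs.primeFactors \ S,
              Real.log p < (∑ j, (k j : ℝ) + ∑ i, (e i : ℝ) + q + r - η) * Real.log A -
                (a + ε) * Real.log (nrm x)))} with hBd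
  have hsub : Bd ⊆ (Pr N e k A : Set _) := by
    rw [← hPr]
    intro G hG
    exact hG.1
  have hfin : Bd.Finite := (Finset.finite_toSet _).subset hsub
  have h1 := h A hA hfin.toFinset (fun G hG => by
    have hG' : G ∈ Bd := hfin.mem_toFinset.1 hG
    refine ⟨Finset.mem_coe.1 (hsub hG'), ?_⟩
    obtain ⟨-, x, hxP, hxp, hx1, hx2, hx3⟩ := hG'
    obtain ⟨v, hv⟩ := bezout x hxp
    refine ⟨x, hxP, ⟨v, hv⟩, hx1, hx2, ?_⟩
    have hs : 0 < nrm x := nrm_pos hv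
    rcases hx3 with ⟨hc, h3⟩ | ⟨hc, h3⟩
    · have hl : lev A x (nrm x) = nrm x := by unfold lev; rw [if_pos hc]
      rw [hl]
      unfold N1
      refine lt_of_lt_of_le h3 (le_of_eq ?_)
      push_cast; ring
    · have hl : lev A x (nrm x) = A := by
        unfold lev; rw [if_neg hc]
        refine min_eq_right ?_
        by_contra hlt
        push Not at hlt
        refine hc (cut_of_le ?_ fun j => ?_)
        · rintro rfl
          simp [nrm] at hs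
        · have h5 := le_nrm x j
          rw [Int.abs_eq_natAbs]
          omega
      rw [hl]
      unfold N1
      refine lt_of_lt_of_le h3 (le_of_eq ?_)
      push_cast; ring)
  rw [Set.ncard_eq_toFinset_card Bd hfin]
  exact h1

end Pool.Agent.Y731.RD
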