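import Pool.Agent.Y731.RD.Cut

set_option autoImplicit false

/-!
The homogeneous integer polynomials with bounded coefficients, and the number of those with a
given value at a primitive vector.
-/

namespace Pool.Agent.Y731.RD

open Finset MvPolynomial

/-- the monomials of degree `k` -/
noncomputable def Mon (N k : ℕ) : Finset (Fin (N + 1) →₀ ℕ) :=
  (Finset.univ : Finset (Fin (N + 1))).finsuppAntidiag k

theorem mem_Mon {N k : ℕ} {α : Fin (N + 1) →₀ ℕ} : α ∈ Mon N k ↔ α.degree = k := by
  unfold Mon
  rw [Finset.mem_finsuppAntidiag]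
  constructor
  · rintro ⟨h1, -⟩
    rw [Finsupp.degree_eq_sum]; exact h1
  · intro h
    refine ⟨?_, Finset.subset_univ _⟩
    rw [Finsupp.degree_eq_sum] at h; exact h

/-- the form with given coefficients -/
noncomputable def toForm {N k : ℕ} (c : Mon N k → ℤ) : MvPolynomial (Fin (N + 1)) ℤ :=
  ∑ α : Mon N k, monomial (α : Fin (N + 1) →₀ ℕ) (c α)

theorem coeff_toForm {N k : ℕ} (c : Mon N k → ℤ) (α : Fin (N + 1) →₀ ℕ) :
    coeff α (toForm c) = if h : α ∈ Mon N k then c ⟨α, h⟩ else 0 := by
  classical
  unfold toForm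
  simp only [coeff_sum, coeff_monomial]
  split_ifs with h
  · rw [Finset.sum_eq_single (⟨α, h⟩ : Mon N k)]
    · simp
    · intro β _ hβ
      rw [if_neg]
      intro h'
      exact hβ (Subtype.ext h')
    · simp
  · refine Finset.sum_eq_zero fun β _ => ?_
    rw [if_neg]
    intro h'
    exact h (h' ▸ β.2)

/-- the forms of degree `k` with coefficients at most `A` -/
noncomputable def Fm (N k A : ℕ) : Finset (MvPolynomial (Fin (N + 1)) ℤ) :=
  open Classical in (Fintype.piFinset fun _ : Mon N k => Finset.Icc (-(A : ℤ)) A).image toForm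

theorem mem_Fm {N k A : ℕ} {F : MvPolynomial (Fin (N + 1)) ℤ} :
    F ∈ Fm N k A ↔ F.IsHomogeneous k ∧ ∀ α, |coeff α F| ≤ (A : ℤ) := by
  classical
  unfold Fm
  rw [Finset.mem_image]
  constructor
  · rintro ⟨c, hc, rfl⟩
    rw [Fintype.mem_piFinset] at hc
    refine ⟨?_, fun α => ?_⟩
    · intro α hα
      rw [coeff_toForm] at hα
      split_ifs at hα with h
      · rw [mem_Mon] at h
        rw [← h, Finsupp.degree_eq_weight_one]
        rfl
      · exact absurd rfl hα
    · rw [coeff_toForm]
      split_ifs with h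
      · have := hc ⟨α, h⟩
        rw [Finset.mem_Icc] at this
        exact abs_le.2 this
      · simp
  · rintro ⟨h1, h2⟩
    refine ⟨fun α => coeff α F, ?_, ?_⟩
    · rw [Fintype.mem_piFinset]
      intro α
      rw [Finset.mem_Icc]
      exact abs_le.1 (h2 α)
    · ext α
      rw [coeff_toForm]
      split_ifs with h
      · rfl
      · by_contra hne
        refine h ?_
        rw [mem_Mon]
        have := h1 (fun h' => hne h'.symm)
        rw [Finsupp.degree_eq_weight_one]
        exact this

theorem card_Fm (N k A : ℕ) : (Fm N k A).card = (2 * A + 1) ^ (Mon N k).card := by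
  classical
  unfold Fm
  rw [Finset.card_image_of_injective, Fintype.card_piFinset]
  · simp only [Int.card_Icc, Finset.prod_const, Finset.card_univ, Fintype.card_coe]
    congr 1
    omega
  · intro c c' h
    funext α
    have h1 := congrArg (coeff (α : Fin (N + 1) →₀ ℕ)) h
    rw [coeff_toForm, coeff_toForm, dif_pos α.2, dif_pos α.2] at h1
    exact h1

/-- the number of the forms with a given value at a primitive vector -/
theorem card_value (N k : ℕ) : ∃ K : ℕ, ∀ A : ℕ, 1 ≤ A → ∀ (x v : Fin (N + 1) → ℤ),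
    ∑ i, v i * x i = 1 → ∀ i₀, x i₀ ≠ 0 → ∀ n : ℤ,
    ((Fm N k A).filter fun F => MvPolynomial.eval x F = n).card *
      (A * (lev A x (x i₀).natAbs) ^ k) ≤ K * (Fm N k A).card := by
  classical
  obtain ⟨M, hM⟩ := many_values N k
  refine ⟨(M + 1) ^ (Mon N k).card, fun A hA x v hv i₀ hx n => ?_⟩
  obtain ⟨V, hV, hVi, hVc⟩ := hM A hA x v hv i₀ hx
  set Sol := (Fm N k A).filter fun F => MvPolynomial.eval x F = n with hSol
  have h1 : (Sol ×ˢ V).card ≤ (Fm N k ((M + 1) * A)).card := by
    refine Finset.card_le_card_of_injOn (fun p => p.1 + p.2) ?_ ?_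
    · intro p hp
      have hp' := Finset.mem_product.1 (Finset.mem_coe.1 hp)
      rw [hSol, Finset.mem_filter, mem_Fm] at hp'
      refine Finset.mem_coe.2 (mem_Fm.2 ⟨hp'.1.1.1.add (hV p.2 hp'.2).1, fun α => ?_⟩)
      rw [coeff_add]
      refine (abs_add_le _ _).trans ?_
      refine (add_le_add (hp'.1.1.2 α) ((hV p.2 hp'.2).2 α)).trans ?_
      push_cast; ring_nf; exact le_rfl
    · intro p hp p' hp' he
      have h1 := Finset.mem_product.1 (Finset.mem_coe.1 hp)
      have h2 := Finset.mem_product.1 (Finset.mem_coe.1 hp')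
      rw [hSol, Finset.mem_filter] at h1 h2
      have he' : p.1 + p.2 = p'.1 + p'.2 := he
      have h3 := congrArg (fun F => MvPolynomial.eval x F) he'
      simp only [map_add] at h3
      rw [h1.1.2, h2.1.2] at h3
      have h4 : p.2 = p'.2 := hVi (Finset.mem_coe.2 h1.2) (Finset.mem_coe.2 h2.2)
        (add_left_cancel h3)
      rw [h4] at he'
      exact Prod.ext (add_right_cancel he') h4
  rw [Finset.card_product, card_Fm] at h1
  calc Sol.card * (A * (lev A x (x i₀).natAbs) ^ k) ≤ Sol.card * V.card :=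
        Nat.mul_le_mul_left _ hVc
    _ ≤ _ := h1
    _ ≤ ((M + 1) * (2 * A + 1)) ^ (Mon N k).card := by
        refine Nat.pow_le_pow_left ?_ _
        nlinarith
    _ = _ := by rw [mul_pow, card_Fm]

end Pool.Agent.Y731.RD
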