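import Pool.Agent.Y731.RD.Fin

set_option autoImplicit false

/-!
Monomial ideals in random forms: the inequality of Vojta with multiplier ideal correction term.
-/

namespace Pool.Agent.Y731.RD

open Finset MvPolynomial

/-- the least value of the linear functional with coefficients `L` on a set of exponents -/
noncomputable def lam {q : ℕ} (T : Set (Fin q → ℕ)) (L : Fin q → ℝ) : ℝ :=
  ⨅ b : T, ∑ j, ((b.1 j : ℕ) : ℝ) * L j

/-- the exponents `b` such that `b + (1, …, 1)` is in the Newton polyhedron of `E` -/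
def minus {q : ℕ} (E : Finset (Fin q → ℕ)) : Set (Fin q → ℕ) :=
  {b | ∃ w : (Fin q → ℕ) → ℝ, (∀ a ∈ E, 0 ≤ w a) ∧ ∑ a ∈ E, w a = 1 ∧
    ∀ j, ∑ a ∈ E, w a * (a j : ℝ) ≤ (b j : ℝ) + 1}

theorem lam_bdd {q : ℕ} (T : Set (Fin q → ℕ)) {L : Fin q → ℝ} (hL : ∀ j, 0 ≤ L j) :
    BddBelow (Set.range fun b : T => ∑ j, ((b.1 j : ℕ) : ℝ) * L j) := by
  refine ⟨0, ?_⟩
  rintro _ ⟨b, rfl⟩
  exact Finset.sum_nonneg fun j _ => mul_nonneg (Nat.cast_nonneg _) (hL j)

theorem lam_gap {q : ℕ} (E : Finset (Fin q → ℕ)) (hE : E.Nonempty) {L : Fin q → ℝ}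
    (hL : ∀ j, 0 ≤ L j) : lam (E : Set (Fin q → ℕ)) L - lam (minus E) L ≤ ∑ j, L j := by
  classical
  obtain ⟨a₀, ha₀⟩ := hE
  have hne : Nonempty (minus E) := by
    refine ⟨⟨a₀, fun a => if a = a₀ then 1 else 0, ?_, ?_, ?_⟩⟩
    · intro a _
      show (0 : ℝ) ≤ if a = a₀ then 1 else 0
      split_ifs <;> norm_num
    · rw [Finset.sum_ite_eq' E a₀ (fun _ => (1 : ℝ)), if_pos ha₀]
    · intro j
      simp only [ite_mul, one_mul, zero_mul]
      rw [Finset.sum_ite_eq' E a₀ (fun a => (a j : ℝ)), if_pos ha₀]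
      linarith
  suffices h : lam (E : Set (Fin q → ℕ)) L - ∑ j, L j ≤ lam (minus E) L by linarith
  refine le_ciInf fun b => ?_
  obtain ⟨b, w, hw0, hw1, hwb⟩ := b
  have h1 : ∀ a ∈ E, lam (E : Set (Fin q → ℕ)) L ≤ ∑ j, (a j : ℝ) * L j := fun a ha =>
    ciInf_le (lam_bdd _ hL) ⟨a, Finset.mem_coe.2 ha⟩
  have h2 : lam (E : Set (Fin q → ℕ)) L ≤ ∑ a ∈ E, w a * ∑ j, (a j : ℝ) * L j := by
    calc lam (E : Set (Fin q → ℕ)) L = ∑ a ∈ E, w a * lam (E : Set (Fin q → ℕ)) L := by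
          rw [← Finset.sum_mul, hw1, one_mul]
      _ ≤ _ := Finset.sum_le_sum fun a ha => mul_le_mul_of_nonneg_left (h1 a ha) (hw0 a ha)
  have h3 : ∑ a ∈ E, w a * ∑ j, (a j : ℝ) * L j = ∑ j, (∑ a ∈ E, w a * (a j : ℝ)) * L j := by
    simp_rw [Finset.mul_sum, Finset.sum_mul]
    rw [Finset.sum_comm]
    exact Finset.sum_congr rfl fun j _ => Finset.sum_congr rfl fun a _ => by ring
  have h4 : ∑ j, (∑ a ∈ E, w a * (a j : ℝ)) * L j ≤ ∑ j, ((b j : ℝ) + 1) * L j :=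
    Finset.sum_le_sum fun j _ => mul_le_mul_of_nonneg_right (hwb j) (hL j)
  have h5 : ∑ j, ((b j : ℝ) + 1) * L j = ∑ j, (b j : ℝ) * L j + ∑ j, L j := by
    rw [← Finset.sum_add_distrib]
    exact Finset.sum_congr rfl fun j _ => by ring
  show lam (E : Set (Fin q → ℕ)) L - ∑ j, L j ≤ ∑ j, (b j : ℝ) * L j
  linarith

/-- the sum of the absolute values of the coefficients -/
noncomputable def l1 {N : ℕ} (F : MvPolynomial (Fin (N + 1)) ℤ) : ℝ :=
  ∑ α ∈ F.support, |((coeff α F : ℤ) : ℝ)|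

/-- the local height at infinity -/
noncomputable def lI {N : ℕ} (F : MvPolynomial (Fin (N + 1)) ℤ) (k : ℕ) (x : Fin (N + 1) → ℤ) : ℝ :=
  Real.log (l1 F) + k * Real.log (nrm x) - Real.log |((MvPolynomial.eval x F : ℤ) : ℝ)|

/-- the local height at `p` -/
noncomputable def lP {N : ℕ} (p : ℕ) (F : MvPolynomial (Fin (N + 1)) ℤ) (x : Fin (N + 1) → ℤ) : ℝ :=
  (padicValInt p (MvPolynomial.eval x F) : ℝ) * Real.log p

theorem eval_le_l1 {N k : ℕ} {F : MvPolynomial (Fin (N + 1)) ℤ} (hF : F.IsHomogeneous k)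
    (x : Fin (N + 1) → ℤ) :
    |((MvPolynomial.eval x F : ℤ) : ℝ)| ≤ l1 F * (nrm x : ℝ) ^ k := by
  rw [MvPolynomial.eval_eq', l1, Finset.sum_mul]
  push_cast
  refine (Finset.abs_sum_le_sum_abs _ _).trans (Finset.sum_le_sum fun α hα => ?_)
  rw [abs_mul, Finset.abs_prod]
  refine mul_le_mul_of_nonneg_left ?_ (abs_nonneg _)
  calc ∏ i, |(x i : ℝ) ^ α i| ≤ ∏ i, (nrm x : ℝ) ^ α i := by
        refine Finset.prod_le_prod (fun _ _ => abs_nonneg _) fun i _ => ?_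
        rw [abs_pow]
        refine pow_le_pow_left₀ (abs_nonneg _) ?_ _
        have h5 : (x i).natAbs ≤ nrm x := le_nrm x i
        have h6 : |(x i : ℝ)| = ((x i).natAbs : ℝ) := by
          rw [Nat.cast_natAbs]; push_cast; rfl
        rw [h6]
        exact_mod_cast h5
    _ = (nrm x : ℝ) ^ k := by
        rw [Finset.prod_pow_eq_pow_sum]
        have h7 : α.degree = k := by
          have h8 := hF (MvPolynomial.mem_support_iff.1 hα)
          rw [Finsupp.degree_eq_weight_one]; exact h8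
        rw [Finsupp.degree_eq_sum] at h7
        rw [h7]

theorem lI_nonneg {N k : ℕ} {F : MvPolynomial (Fin (N + 1)) ℤ} (hF : F.IsHomogeneous k)
    {x : Fin (N + 1) → ℤ} (hx : 0 < nrm x) (h0 : MvPolynomial.eval x F ≠ 0) : 0 ≤ lI F k x := by
  have h1 := eval_le_l1 hF x
  have h2 : (0 : ℝ) < |((MvPolynomial.eval x F : ℤ) : ℝ)| := by
    rw [abs_pos]; exact_mod_cast h0
  have h3 : (0 : ℝ) < nrm x := by exact_mod_cast hx
  have h4 : 0 < l1 F := by
    by_contra h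
    push Not at h
    have : l1 F * (nrm x : ℝ) ^ k ≤ 0 := mul_nonpos_of_nonpos_of_nonneg h (by positivity)
    linarith
  unfold lI
  have h5 := Real.log_le_log h2 h1
  rw [Real.log_mul h4.ne' (by positivity), Real.log_pow] at h5
  linarith

theorem lP_nonneg {N : ℕ} (p : ℕ) (F : MvPolynomial (Fin (N + 1)) ℤ) (x : Fin (N + 1) → ℤ) :
    0 ≤ lP p F x :=
  mul_nonneg (Nat.cast_nonneg _) (Real.log_natCast_nonneg p)

/-- the contribution of the multiplicities outside `S` -/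
noncomputable def sur (S : Finset ℕ) (z : ℤ) : ℝ :=
  ∑ p ∈ z.natAbs.primeFactors \ S, ((padicValInt p z : ℝ) - 1) * Real.log p

/-- the product formula -/
theorem prod_formula (S : Finset ℕ) (hS : ∀ p ∈ S, p.Prime) {z : ℤ} (hz : z ≠ 0) :
    Real.log |(z : ℝ)| = ∑ p ∈ S, (padicValInt p z : ℝ) * Real.log p + sur S z + N1 S z := by
  classical
  have hn : z.natAbs ≠ 0 := Int.natAbs_ne_zero.2 hz
  have h1 : Real.log |(z : ℝ)| = ∑ p ∈ z.natAbs.primeFactors, (padicValInt p z : ℝ) * Real.log p := by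
    have h2 : |(z : ℝ)| = ((z.natAbs : ℕ) : ℝ) := by rw [Nat.cast_natAbs]; push_cast; rfl
    rw [h2]
    conv_lhs => rw [← Nat.prod_factorization_pow_eq_self hn]
    rw [Finsupp.prod, Nat.support_factorization, Nat.cast_prod, Real.log_prod]
    · refine Finset.sum_congr rfl fun p hp => ?_
      push_cast
      rw [Real.log_pow, Nat.factorization_def _ (Nat.prime_of_mem_primeFactors hp)]
      rfl
    · intro p hp
      have := (Nat.prime_of_mem_primeFactors hp).pos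
      positivity
  have h3 : ∑ p ∈ S, (padicValInt p z : ℝ) * Real.log p =
      ∑ p ∈ z.natAbs.primeFactors ∩ S, (padicValInt p z : ℝ) * Real.log p := by
    symm
    refine Finset.sum_subset Finset.inter_subset_right fun p hp hp' => ?_
    have h4 : p ∉ z.natAbs.primeFactors := fun h => hp' (Finset.mem_inter.2 ⟨h, hp⟩)
    have h5 : ¬ p ∣ z.natAbs := fun h => h4 (Nat.mem_primeFactors.2 ⟨hS p hp, h, hn⟩)
    have h6 : padicValInt p z = 0 := padicValNat.eq_zero_of_not_dvd h5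
    rw [h6]; simp
  have h4 : sur S z + N1 S z =
      ∑ p ∈ z.natAbs.primeFactors \ S, (padicValInt p z : ℝ) * Real.log p := by
    unfold sur N1
    rw [← Finset.sum_add_distrib]
    exact Finset.sum_congr rfl fun p _ => by ring
  rw [add_assoc, h4, h3, h1, Finset.sum_inter_add_sum_sdiff]

/-- the difference of the proximity functions of the ideal and of its `I⁻` -/
noncomputable def gap {N q : ℕ} (E : Finset (Fin q → ℕ)) (S : Finset ℕ) (k : Fin q → ℕ)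
    (F : Fin q → MvPolynomial (Fin (N + 1)) ℤ) (x : Fin (N + 1) → ℤ) : ℝ :=
  (lam (E : Set (Fin q → ℕ)) (fun j => lI (F j) (k j) x) -
      lam (minus E) (fun j => lI (F j) (k j) x)) +
    ∑ p ∈ S, (lam (E : Set (Fin q → ℕ)) (fun j => lP p (F j) x) -
      lam (minus E) (fun j => lP p (F j) x))

theorem gap_le {N q : ℕ} (E : Finset (Fin q → ℕ)) (hE : E.Nonempty) (S : Finset ℕ)
    (hS : ∀ p ∈ S, p.Prime) (k : Fin q → ℕ) (F : Fin q → MvPolynomial (Fin (N + 1)) ℤ)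
    (hF : ∀ j, (F j).IsHomogeneous (k j)) {x : Fin (N + 1) → ℤ} (hx : 0 < nrm x)
    (h0 : ∀ j, MvPolynomial.eval x (F j) ≠ 0) :
    gap E S k F x + sur S (∏ j, MvPolynomial.eval x (F j)) +
      N1 S (∏ j, MvPolynomial.eval x (F j)) ≤
      ∑ j, Real.log (l1 (F j)) + (∑ j, (k j : ℝ)) * Real.log (nrm x) := by
  classical
  have h1 : gap E S k F x ≤ ∑ j, lI (F j) (k j) x + ∑ p ∈ S, ∑ j, lP p (F j) x := by
    unfold gap
    refine add_le_add (lam_gap E hE fun j => lI_nonneg (hF j) hx (h0 j)) ?_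
    exact Finset.sum_le_sum fun p _ => lam_gap E hE fun j => lP_nonneg p (F j) x
  have hz : (∏ j, MvPolynomial.eval x (F j)) ≠ 0 := Finset.prod_ne_zero_iff.2 fun j _ => h0 j
  have h2 := prod_formula S hS hz
  have h3 : ∑ p ∈ S, ∑ j, lP p (F j) x =
      ∑ p ∈ S, (padicValInt p (∏ j, MvPolynomial.eval x (F j)) : ℝ) * Real.log p := by
    refine Finset.sum_congr rfl fun p hp => ?_
    have : Fact p.Prime := ⟨hS p hp⟩
    have h4 : ∀ s : Finset (Fin q), (padicValInt p (∏ j ∈ s, MvPolynomial.eval x (F j)) : ℝ) =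
        ∑ j ∈ s, (padicValInt p (MvPolynomial.eval x (F j)) : ℝ) := by
      intro s
      induction s using Finset.induction_on with
      | empty => simp
      | insert a s ha ih =>
        rw [Finset.prod_insert ha, Finset.sum_insert ha,
          padicValInt.mul (h0 a) (Finset.prod_ne_zero_iff.2 fun j _ => h0 j)]
        push_cast
        rw [ih]
    rw [h4 Finset.univ, Finset.sum_mul]
    rfl
  have h4 : Real.log |((∏ j, MvPolynomial.eval x (F j) : ℤ) : ℝ)| =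
      ∑ j, Real.log |((MvPolynomial.eval x (F j) : ℤ) : ℝ)| := by
    push_cast
    rw [Finset.abs_prod, Real.log_prod]
    intro j _
    rw [abs_ne_zero]
    exact_mod_cast h0 j
  have h5 : ∑ j, lI (F j) (k j) x = ∑ j, Real.log (l1 (F j)) +
      (∑ j, (k j : ℝ)) * Real.log (nrm x) - ∑ j, Real.log |((MvPolynomial.eval x (F j) : ℤ) : ℝ)| := by
    unfold lI
    rw [Finset.sum_sub_distrib, Finset.sum_add_distrib, Finset.sum_mul]
  linarith

/-- the theorem on random ideals -/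
theorem main_ideal (N : ℕ) {r q : ℕ} (e : Fin r → ℕ) (k : Fin q → ℕ) (S : Finset ℕ)
    (hS : ∀ p ∈ S, p.Prime)
    (P : Set (Fin (N + 1) → ℤ)) {a C₀ : ℝ} (ha : 0 ≤ a)
    (hP : ∀ B : ℕ, 1 ≤ B → ({x ∈ P | nrm x ≤ B}.ncard : ℝ) ≤ C₀ * (B : ℝ) ^ a)
    {ε η : ℝ} (hε : 0 < ε) (hη : 0 < η) :
    ∃ C : ℝ, ∀ A : ℕ, 1 ≤ A →
      ({G : (Fin r → MvPolynomial (Fin (N + 1)) ℤ) × (Fin q → MvPolynomial (Fin (N + 1)) ℤ) |
        ((∀ i, (G.1 i).IsHomogeneous (e i) ∧ ∀ α, |coeff α (G.1 i)| ≤ (A : ℤ)) ∧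
          ∀ j, (G.2 j).IsHomogeneous (k j) ∧ ∀ α, |coeff α (G.2 j)| ≤ (A : ℤ)) ∧
        ∃ x ∈ P, (∀ d : ℤ, (∀ i, d ∣ x i) → IsUnit d) ∧ Cut A x ∧
          (∀ i, MvPolynomial.eval x (G.1 i) = 0) ∧ (∀ j, MvPolynomial.eval x (G.2 j) ≠ 0) ∧
          ∃ E : Finset (Fin q → ℕ), E.Nonempty ∧
            ε * Real.log (nrm x) - ((q : ℝ) + r - η) * Real.log A +
                ∑ j, Real.log (l1 (G.2 j)) <
              (∑ i, (e i : ℝ) - a) * Real.log (nrm x) + gap E S k G.2 x +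
                sur S (∏ j, MvPolynomial.eval x (G.2 j))}.ncard : ℝ) ≤
      C * (A : ℝ) ^ (-(η / 2)) *
        ({G : (Fin r → MvPolynomial (Fin (N + 1)) ℤ) × (Fin q → MvPolynomial (Fin (N + 1)) ℤ) |
        (∀ i, (G.1 i).IsHomogeneous (e i) ∧ ∀ α, |coeff α (G.1 i)| ≤ (A : ℤ)) ∧
          ∀ j, (G.2 j).IsHomogeneous (k j) ∧ ∀ α, |coeff α (G.2 j)| ≤ (A : ℤ)}.ncard : ℝ) := by
  classical
  obtain ⟨C, hC⟩ := main_set N e k S P ha hP hε hη
  refine ⟨C, fun A hA => le_trans ?_ (hC A hA)⟩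
  have hfin : {G : (Fin r → MvPolynomial (Fin (N + 1)) ℤ) ×
      (Fin q → MvPolynomial (Fin (N + 1)) ℤ) |
        (∀ i, (G.1 i).IsHomogeneous (e i) ∧ ∀ α, |coeff α (G.1 i)| ≤ (A : ℤ)) ∧
          ∀ j, (G.2 j).IsHomogeneous (k j) ∧ ∀ α, |coeff α (G.2 j)| ≤ (A : ℤ)}.Finite := by
    refine (Finset.finite_toSet (Pr N e k A)).subset fun G hG => ?_
    rw [Finset.mem_coe]
    unfold Pr
    rw [Finset.mem_product, Fintype.mem_piFinset, Fintype.mem_piFinset]
    simp only [mem_Fm]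
    exact hG
  refine Nat.cast_le.2 (Set.ncard_le_ncard ?_ (hfin.subset fun G hG => hG.1))
  rintro G ⟨hG, x, hxP, hxp, hcut, hx1, hx2, E, hE, hlt⟩
  refine ⟨hG, x, hxP, hxp, hx1, hx2, Or.inl ⟨hcut, ?_⟩⟩
  obtain ⟨v, hv⟩ := bezout x hxp
  have h1 := gap_le E hE S hS k G.2 (fun j => (hG.2 j).1) (nrm_pos hv) hx2
  have h2 : ∑ p ∈ (∏ j, MvPolynomial.eval x (G.2 j)).natAbs.primeFactors \ S, Real.log p =
      N1 S (∏ j, MvPolynomial.eval x (G.2 j)) := rfl
  rw [h2]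
  linarith

end Pool.Agent.Y731.RD
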