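import Pool.Agent.H813R3.Voj.Rad
import Pool.Agent.H510R2.Div

set_option autoImplicit false

/-!
The number of tuples of integers the product of which has a small radical.
-/

namespace Pool.Agent.Y731.RD

open Finset Pool.Agent.H813R3.Voj

/-- integers dividing a nonzero integer -/
theorem card_dvd {M : ℕ} (hM : M ≠ 0) (T : Finset ℤ) (hT : ∀ t ∈ T, t ∣ (M : ℤ)) :
    T.card ≤ 2 * M.divisors.card := by
  classical
  have h1 : T ⊆ (M.divisors.image fun d : ℕ => (d : ℤ)) ∪ (M.divisors.image fun d : ℕ => -(d : ℤ)) := by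
    intro t ht
    have h2 : t.natAbs ∣ M := by
      have := Int.natAbs_dvd_natAbs.2 (hT t ht)
      simpa using this
    have h3 : t.natAbs ∈ M.divisors := Nat.mem_divisors.2 ⟨h2, hM⟩
    rw [Finset.mem_union]
    rcases Int.natAbs_eq t with h | h
    · left; exact Finset.mem_image.2 ⟨_, h3, h.symm⟩
    · right; exact Finset.mem_image.2 ⟨_, h3, h.symm⟩
  calc T.card ≤ _ := Finset.card_le_card h1
    _ ≤ _ := Finset.card_union_le _ _
    _ ≤ M.divisors.card + M.divisors.card := add_le_add Finset.card_image_le Finset.card_image_le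
    _ = _ := by ring

/-- the number of tuples of nonzero integers of absolute value at most `Z` for which the radical
of the product is at most `R` -/
theorem card_tuples (q : ℕ) (S : Finset ℕ) {δ : ℝ} (hδ : 0 < δ) : ∃ C : ℝ, 0 < C ∧
    ∀ Z : ℝ, 1 ≤ Z → ∀ R : ℝ, 0 ≤ R → ∀ T : Finset (Fin q → ℤ),
      (∀ n ∈ T, (∀ j, n j ≠ 0 ∧ |(n j : ℝ)| ≤ Z) ∧ (rho S (∏ j, n j) : ℝ) ≤ R) →
        (T.card : ℝ) ≤ C * R * Z ^ δ := by
  classical
  set δ' : ℝ := δ / (2 * (q + 1) * (q + 1)) with hδ'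
  have hq0 : (0 : ℝ) < (q : ℝ) + 1 := by positivity
  have hδ'0 : 0 < δ' := by positivity
  obtain ⟨C1, hC1, h1⟩ := Pool.Agent.H510R2.divisor_bound δ' hδ'0
  obtain ⟨C2, hC2, h2⟩ := sum_inv_rho S hδ'0
  refine ⟨(2 * C1) ^ q * C2, by positivity, fun Z hZ R hR0 T hT => ?_⟩
  have hZ0 : (0 : ℝ) < Z := by linarith
  set W : ℝ := Z ^ q with hW
  have hW1 : 1 ≤ W := one_le_pow₀ hZ
  set P : Finset ℕ := T.image fun n => (∏ j, n j).natAbs with hP
  have hfib : ∀ M ∈ P, M ≠ 0 ∧ (M : ℝ) ≤ W ∧ 1 ≤ M ∧ (rho S (M : ℤ) : ℝ) ≤ R := by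
    intro M hM
    obtain ⟨n, hn, rfl⟩ := Finset.mem_image.1 hM
    obtain ⟨h3, h4⟩ := hT n hn
    have h5 : ∏ j, n j ≠ 0 := Finset.prod_ne_zero_iff.2 fun j _ => (h3 j).1
    have h6 : (∏ j, n j).natAbs ≠ 0 := Int.natAbs_ne_zero.2 h5
    refine ⟨h6, ?_, Nat.one_le_iff_ne_zero.2 h6, ?_⟩
    · have h7 : (((∏ j, n j).natAbs : ℕ) : ℝ) = ∏ j, |(n j : ℝ)| := by
        rw [Nat.cast_natAbs, Int.cast_abs, Int.cast_prod, Finset.abs_prod]
      rw [h7, hW]
      calc ∏ j, |(n j : ℝ)| ≤ ∏ _j : Fin q, Z :=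
            Finset.prod_le_prod (fun _ _ => abs_nonneg _) fun j _ => (h3 j).2
        _ = Z ^ q := by simp
    · have h7 : rho S (((∏ j, n j).natAbs : ℕ) : ℤ) = rho S (∏ j, n j) := by
        unfold rho; rw [Int.natAbs_natCast]
      rw [h7]; exact h4
  -- the number of elements of the fibres
  have hcard : ∀ M ∈ P, ((T.filter fun n => (∏ j, n j).natAbs = M).card : ℝ) ≤
      (2 * C1) ^ q * W ^ (δ' * q) := by
    intro M hM
    obtain ⟨hM0, hMW, hM1, -⟩ := hfib M hM
    set Dv : Finset ℤ := (T.biUnion fun n => Finset.univ.image n).filter fun t => t ∣ (M : ℤ) with hDv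
    have h3 : (T.filter fun n => (∏ j, n j).natAbs = M) ⊆ Fintype.piFinset fun _ : Fin q => Dv := by
      intro n hn
      rw [Finset.mem_filter] at hn
      rw [Fintype.mem_piFinset]
      intro j
      rw [hDv, Finset.mem_filter, Finset.mem_biUnion]
      refine ⟨⟨n, hn.1, Finset.mem_image_of_mem _ (Finset.mem_univ j)⟩, ?_⟩
      rw [← hn.2]
      exact (Finset.dvd_prod_of_mem _ (Finset.mem_univ j)).trans Int.dvd_natAbs_self
    have h4 : Dv.card ≤ 2 * M.divisors.card := card_dvd hM0 _ fun t ht => (Finset.mem_filter.1 ht).2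
    have h5 : ((T.filter fun n => (∏ j, n j).natAbs = M).card : ℝ) ≤ (Dv.card : ℝ) ^ q := by
      have := Finset.card_le_card h3
      rw [Fintype.card_piFinset] at this
      simp only [Finset.prod_const, Finset.card_univ, Fintype.card_fin] at this
      exact_mod_cast this
    refine h5.trans ?_
    have h6 : (Dv.card : ℝ) ≤ 2 * C1 * W ^ δ' := by
      calc (Dv.card : ℝ) ≤ 2 * (M.divisors.card : ℝ) := by exact_mod_cast h4
        _ ≤ 2 * (C1 * (M : ℝ) ^ δ') := by
            have := h1 M hM1; linarith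
        _ ≤ 2 * (C1 * W ^ δ') := by
            have := Real.rpow_le_rpow (by positivity) hMW hδ'0.le
            have h8 := mul_le_mul_of_nonneg_left this hC1.le
            linarith
        _ = _ := by ring
    calc (Dv.card : ℝ) ^ q ≤ (2 * C1 * W ^ δ') ^ q := pow_le_pow_left₀ (by positivity) h6 q
      _ = (2 * C1) ^ q * W ^ (δ' * q) := by
          rw [mul_pow, ← Real.rpow_natCast (W ^ δ') q, ← Real.rpow_mul (by positivity)]
  -- the number of fibres
  have hPcard : (P.card : ℝ) ≤ R * (C2 * W ^ δ') := by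
    have h3 : P ⊆ Finset.Icc 1 ⌊W⌋₊ := by
      intro M hM
      rw [Finset.mem_Icc]
      exact ⟨(hfib M hM).2.2.1, Nat.le_floor (hfib M hM).2.1⟩
    have hfl : 1 ≤ ⌊W⌋₊ := Nat.le_floor (by simpa using hW1)
    calc (P.card : ℝ) = ∑ M ∈ P, (1 : ℝ) := by simp
      _ ≤ ∑ M ∈ P, R * (1 / rho S (M : ℤ)) := by
          refine Finset.sum_le_sum fun M hM => ?_
          have h4 : (0 : ℝ) < rho S (M : ℤ) := by exact_mod_cast rho_pos S _
          rw [mul_one_div, le_div_iff₀ h4, one_mul]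
          exact (hfib M hM).2.2.2
      _ = R * ∑ M ∈ P, (1 : ℝ) / rho S (M : ℤ) := by rw [Finset.mul_sum]
      _ ≤ R * ∑ M ∈ Finset.Icc 1 ⌊W⌋₊, (1 : ℝ) / rho S (M : ℤ) := by
          refine mul_le_mul_of_nonneg_left ?_ hR0
          exact Finset.sum_le_sum_of_subset_of_nonneg h3 fun _ _ _ => by positivity
      _ ≤ R * (C2 * (⌊W⌋₊ : ℝ) ^ δ') := mul_le_mul_of_nonneg_left (h2 _ hfl) hR0
      _ ≤ R * (C2 * W ^ δ') := by
          refine mul_le_mul_of_nonneg_left (mul_le_mul_of_nonneg_left ?_ hC2.le) hR0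
          exact Real.rpow_le_rpow (by positivity) (Nat.floor_le (by positivity)) hδ'0.le
  have h9 : T.card = ∑ M ∈ P, (T.filter fun n => (∏ j, n j).natAbs = M).card :=
    Finset.card_eq_sum_card_fiberwise fun n hn => Finset.mem_coe.2 (Finset.mem_image_of_mem _ hn)
  have h10 : (T.card : ℝ) ≤ P.card * ((2 * C1) ^ q * W ^ (δ' * q)) := by
    rw [h9]; push_cast
    refine (Finset.sum_le_sum hcard).trans ?_
    rw [Finset.sum_const, nsmul_eq_mul]
  have h11 : W ^ δ' * W ^ (δ' * q) ≤ Z ^ δ := by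
    rw [← Real.rpow_add (by positivity), hW, ← Real.rpow_natCast Z q, ← Real.rpow_mul hZ0.le]
    refine Real.rpow_le_rpow_of_exponent_le hZ ?_
    rw [hδ']
    have h12 : (q : ℝ) * (δ / (2 * (q + 1) * (q + 1)) + δ / (2 * (q + 1) * (q + 1)) * q) =
        δ * (q / (2 * (q + 1))) := by
      field_simp
      ring
    rw [h12]
    have h13 : (q : ℝ) / (2 * (q + 1)) ≤ 1 := by
      rw [div_le_one (by positivity)]; linarith
    calc δ * (q / (2 * (q + 1))) ≤ δ * 1 := mul_le_mul_of_nonneg_left h13 hδ.le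
      _ = δ := mul_one δ
  calc (T.card : ℝ) ≤ _ := h10
    _ ≤ R * (C2 * W ^ δ') * ((2 * C1) ^ q * W ^ (δ' * q)) :=
        mul_le_mul_of_nonneg_right hPcard (by positivity)
    _ = (2 * C1) ^ q * C2 * R * (W ^ δ' * W ^ (δ' * q)) := by ring
    _ ≤ _ := mul_le_mul_of_nonneg_left h11 (by positivity)

end Pool.Agent.Y731.RD
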