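import Pool.Agent.Y731.RD.Forms
import Pool.Agent.Y731.RD.Tup
import Pool.Agent.Y731.RD.Dy

set_option autoImplicit false

/-!
Vojta's inequality with truncated counting function for random pairs of a complete intersection
and a divisor.
-/

namespace Pool.Agent.Y731.RD

open Finset MvPolynomial Pool.Agent.H813R3.Voj

/-- the truncated counting function of an integer outside `S` -/
noncomputable def N1 (S : Finset ℕ) (m : ℤ) : ℝ :=
  ∑ p ∈ m.natAbs.primeFactors \ S, Real.log p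

theorem N1_eq (S : Finset ℕ) (m : ℤ) : N1 S m = Real.log (rho S m) := by
  unfold N1 rho
  rw [Nat.cast_prod, Real.log_prod]
  intro p hp
  rw [Finset.mem_sdiff] at hp
  have := (Nat.prime_of_mem_primeFactors hp.1).pos
  positivity

/-- the pairs of tuples of forms -/
noncomputable def Pr (N : ℕ) {r q : ℕ} (e : Fin r → ℕ) (k : Fin q → ℕ) (A : ℕ) :
    Finset ((Fin r → MvPolynomial (Fin (N + 1)) ℤ) × (Fin q → MvPolynomial (Fin (N + 1)) ℤ)) :=
  (Fintype.piFinset fun i => Fm N (e i) A) ×ˢ (Fintype.piFinset fun j => Fm N (k j) A)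

/-- values of forms with bounded coefficients -/
theorem eval_le {N k A : ℕ} {F : MvPolynomial (Fin (N + 1)) ℤ} (hF : F ∈ Fm N k A)
    (x : Fin (N + 1) → ℤ) :
    |((MvPolynomial.eval x F : ℤ) : ℝ)| ≤ (Mon N k).card * A * (nrm x : ℝ) ^ k := by
  rw [mem_Fm] at hF
  have hsub : F.support ⊆ Mon N k := by
    intro α hα
    rw [mem_Mon]
    have := hF.1 (MvPolynomial.mem_support_iff.1 hα)
    rw [Finsupp.degree_eq_weight_one]; exact this
  have h1 : MvPolynomial.eval x F = ∑ α ∈ Mon N k, coeff α F * ∏ i, x i ^ α i := by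
    rw [MvPolynomial.eval_eq']
    refine Finset.sum_subset hsub fun α _ hα => ?_
    rw [MvPolynomial.notMem_support_iff.1 hα, zero_mul]
  rw [h1]; push_cast
  refine (Finset.abs_sum_le_sum_abs _ _).trans ?_
  have h2 : ∀ α ∈ Mon N k, |((coeff α F : ℤ) : ℝ) * ∏ i, (x i : ℝ) ^ α i| ≤
      (A : ℝ) * (nrm x : ℝ) ^ k := by
    intro α hα
    rw [abs_mul, Finset.abs_prod]
    have h3 : |((coeff α F : ℤ) : ℝ)| ≤ A := by exact_mod_cast hF.2 α
    have h4 : ∏ i, |(x i : ℝ) ^ α i| ≤ (nrm x : ℝ) ^ k := by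
      calc ∏ i, |(x i : ℝ) ^ α i| ≤ ∏ i, (nrm x : ℝ) ^ α i := by
            refine Finset.prod_le_prod (fun _ _ => abs_nonneg _) fun i _ => ?_
            rw [abs_pow]
            refine pow_le_pow_left₀ (abs_nonneg _) ?_ _
            have h5 : (x i).natAbs ≤ nrm x := Finset.le_sup (f := fun i => (x i).natAbs)
              (Finset.mem_univ i)
            have h6 : (((x i).natAbs : ℕ) : ℝ) = |(x i : ℝ)| := by
              rw [Nat.cast_natAbs, Int.cast_abs]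
            rw [← h6]; exact_mod_cast h5
        _ = (nrm x : ℝ) ^ (∑ i, α i) := Finset.prod_pow_eq_pow_sum _ _ _
        _ = _ := by
            rw [mem_Mon, Finsupp.degree_eq_sum] at hα
            rw [hα]
    exact mul_le_mul h3 h4 (Finset.prod_nonneg fun _ _ => abs_nonneg _) (by positivity)
  refine (Finset.sum_le_sum h2).trans ?_
  rw [Finset.sum_const, nsmul_eq_mul]
  exact le_of_eq (by ring)

theorem le_nrm {m : ℕ} (x : Fin m → ℤ) (i : Fin m) : (x i).natAbs ≤ nrm x :=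
  Finset.le_sup (f := fun i => (x i).natAbs) (Finset.mem_univ i)

theorem nrm_pos {m : ℕ} {x v : Fin m → ℤ} (hv : ∑ i, v i * x i = 1) : 0 < nrm x := by
  rw [Nat.pos_iff_ne_zero]
  intro h
  have h1 : ∀ i, x i = 0 := by
    intro i
    have h2 := le_nrm x i
    rw [h] at h2
    exact Int.natAbs_eq_zero.1 (Nat.le_zero.1 h2)
  rw [Finset.sum_eq_zero (fun i _ => by rw [h1 i, mul_zero])] at hv
  exact zero_ne_one hv

theorem lev_pos {N A : ℕ} (hA : 1 ≤ A) (x : Fin (N + 1) → ℤ) {s : ℕ} (hs : 0 < s) :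
    0 < lev A x s := by
  unfold lev
  split_ifs
  · exact hs
  · exact lt_min hs (by omega)

/-- number of forms with a given value, real version -/
theorem card_value' (N k : ℕ) : ∃ K : ℝ, 0 < K ∧ ∀ A : ℕ, 1 ≤ A → ∀ (x v : Fin (N + 1) → ℤ),
    ∑ i, v i * x i = 1 → ∀ n : ℤ,
    (((Fm N k A).filter fun F => MvPolynomial.eval x F = n).card : ℝ) ≤
      K * (Fm N k A).card * ((A : ℝ)⁻¹ * ((lev A x (nrm x) : ℝ) ^ k)⁻¹) := by
  obtain ⟨K, hK⟩ := card_value N k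
  refine ⟨(K : ℝ) + 1, by positivity, fun A hA x v hv n => ?_⟩
  obtain ⟨i₀, -, hi₀⟩ := Finset.exists_mem_eq_sup (Finset.univ : Finset (Fin (N + 1)))
    Finset.univ_nonempty (fun i => (x i).natAbs)
  have hn : nrm x = (x i₀).natAbs := hi₀
  have hs : 0 < nrm x := nrm_pos hv
  have hx : x i₀ ≠ 0 := by
    intro h
    rw [hn, h] at hs
    exact absurd hs (lt_irrefl _)
  have h1 := hK A hA x v hv i₀ hx n
  rw [← hn] at h1
  have hl : 0 < lev A x (nrm x) := lev_pos hA x hs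
  set c1 := ((Fm N k A).filter fun F => MvPolynomial.eval x F = n).card
  set c2 := (Fm N k A).card
  have h2 : (c1 : ℝ) * ((A : ℝ) * (lev A x (nrm x) : ℝ) ^ k) ≤ K * c2 := by exact_mod_cast h1
  have hA0 : (0 : ℝ) < A := by exact_mod_cast (show 0 < A by omega)
  have hl0 : (0 : ℝ) < lev A x (nrm x) := by exact_mod_cast hl
  rw [← mul_inv, ← div_eq_mul_inv, le_div_iff₀ (by positivity)]
  refine h2.trans ?_
  exact mul_le_mul_of_nonneg_right (by linarith) (Nat.cast_nonneg _)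

/-- the bad pairs for one point -/
noncomputable def Bad (N : ℕ) {r q : ℕ} (e : Fin r → ℕ) (k : Fin q → ℕ) (S : Finset ℕ)
    (t : ℝ) (A : ℕ) (x : Fin (N + 1) → ℤ) :
    Finset ((Fin r → MvPolynomial (Fin (N + 1)) ℤ) × (Fin q → MvPolynomial (Fin (N + 1)) ℤ)) :=
  open Classical in (Pr N e k A).filter fun P => (∀ i, MvPolynomial.eval x (P.1 i) = 0) ∧
    (∀ j, MvPolynomial.eval x (P.2 j) ≠ 0) ∧ N1 S (∏ j, MvPolynomial.eval x (P.2 j)) < t

theorem card_Bad (N : ℕ) {r q : ℕ} (e : Fin r → ℕ) (k : Fin q → ℕ) (S : Finset ℕ) {δ : ℝ}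
    (hδ : 0 < δ) : ∃ C : ℝ, 0 < C ∧ ∀ A : ℕ, 1 ≤ A → ∀ (x v : Fin (N + 1) → ℤ),
      ∑ i, v i * x i = 1 → ∀ t : ℝ, ((Bad N e k S t A x).card : ℝ) ≤
        C * (Pr N e k A).card * Real.exp t * (A : ℝ) ^ δ * (nrm x : ℝ) ^ δ *
          ((A : ℝ) ^ (r + q))⁻¹ * ((lev A x (nrm x) : ℝ) ^ (∑ i, e i + ∑ j, k j))⁻¹ := by
  classical
  set K : ℕ := ∑ j, k j with hK
  set δ' : ℝ := δ / (K + 1) with hδ'
  have hK0 : (0 : ℝ) < (K : ℝ) + 1 := by positivity
  have hδ'0 : 0 < δ' := by positivity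
  obtain ⟨C1, hC1, h1⟩ := card_tuples q S hδ'0
  choose Ke hKe0 hKe using fun i => card_value' N (e i)
  choose Kk hKk0 hKk using fun j => card_value' N (k j)
  obtain ⟨m, hm, hm1⟩ : ∃ m : ℕ, (∀ j, (Mon N (k j)).card ≤ m) ∧ 1 ≤ m :=
    ⟨∑ j, (Mon N (k j)).card + 1, fun j => (Finset.single_le_sum
      (f := fun j => (Mon N (k j)).card) (fun _ _ => Nat.zero_le _) (Finset.mem_univ j)).trans
        (Nat.le_succ _), Nat.succ_le_succ (Nat.zero_le _)⟩
  have hm0 : (0 : ℝ) < m := by exact_mod_cast (show 0 < m by omega)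
  have hprodpos : 0 < (∏ i, Ke i) * ∏ j, Kk j :=
    mul_pos (Finset.prod_pos fun i _ => hKe0 i) (Finset.prod_pos fun j _ => hKk0 j)
  refine ⟨C1 * (m : ℝ) ^ δ' * ((∏ i, Ke i) * ∏ j, Kk j), by positivity,
    fun A hA x v hv t => ?_⟩
  have hA0 : (0 : ℝ) < A := by exact_mod_cast (show 0 < A by omega)
  have hA1 : (1 : ℝ) ≤ A := by exact_mod_cast hA
  have hs : 0 < nrm x := nrm_pos hv
  have hs0 : (0 : ℝ) < nrm x := by exact_mod_cast hs
  have hs1 : (1 : ℝ) ≤ nrm x := by exact_mod_cast hs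
  have hl : 0 < lev A x (nrm x) := lev_pos hA x hs
  have hl0 : (0 : ℝ) < lev A x (nrm x) := by exact_mod_cast hl
  set l : ℝ := (lev A x (nrm x) : ℝ) with hl'
  set NN : Finset (Fin q → ℤ) := (Bad N e k S t A x).image
    fun P => fun j => MvPolynomial.eval x (P.2 j) with hNN
  set Z : ℝ := m * A * (nrm x : ℝ) ^ K with hZ
  have hZ1 : 1 ≤ Z := by
    have h2 : (1 : ℝ) ≤ m := by exact_mod_cast (show 1 ≤ m by omega)
    have h3 : (1 : ℝ) ≤ (nrm x : ℝ) ^ K := one_le_pow₀ hs1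
    calc (1 : ℝ) = 1 * 1 * 1 := by norm_num
      _ ≤ _ := mul_le_mul (mul_le_mul h2 hA1 zero_le_one hm0.le) h3 zero_le_one (by positivity)
  have hNNc : (NN.card : ℝ) ≤ C1 * Real.exp t * Z ^ δ' := by
    refine h1 Z hZ1 _ (Real.exp_pos t).le NN ?_
    intro n hn
    obtain ⟨P, hP, rfl⟩ := Finset.mem_image.1 hn
    unfold Bad at hP
    rw [Finset.mem_filter] at hP
    obtain ⟨hP1, -, hP2, hP3⟩ := hP
    unfold Pr at hP1
    rw [Finset.mem_product, Fintype.mem_piFinset, Fintype.mem_piFinset] at hP1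
    refine ⟨fun j => ⟨hP2 j, ?_⟩, ?_⟩
    · refine (eval_le (hP1.2 j) x).trans ?_
      rw [hZ]
      have h2 : ((Mon N (k j)).card : ℝ) ≤ m := Nat.cast_le.2 (hm j)
      have h3 : (nrm x : ℝ) ^ k j ≤ (nrm x : ℝ) ^ K := by
        refine pow_le_pow_right₀ hs1 ?_
        rw [hK]
        exact Finset.single_le_sum (f := k) (fun _ _ => Nat.zero_le _) (Finset.mem_univ j)
      exact mul_le_mul (mul_le_mul_of_nonneg_right h2 hA0.le) h3 (by positivity) (by positivity)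
    · rw [N1_eq] at hP3
      have h2 : (0 : ℝ) < rho S (∏ j, MvPolynomial.eval x (P.2 j)) := by
        exact_mod_cast rho_pos S _
      rw [← Real.exp_log h2]
      exact Real.exp_le_exp.2 hP3.le
  -- the fibres
  have hfib : ∀ n ∈ NN, (((Bad N e k S t A x).filter
      fun P => (fun j => MvPolynomial.eval x (P.2 j)) = n).card : ℝ) ≤
      ((∏ i, Ke i) * ∏ j, Kk j) * (Pr N e k A).card * ((A : ℝ) ^ (r + q))⁻¹ *
        (l ^ (∑ i, e i + ∑ j, k j))⁻¹ := by
    intro n _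
    have h2 : (Bad N e k S t A x).filter (fun P => (fun j => MvPolynomial.eval x (P.2 j)) = n) ⊆
        (Fintype.piFinset fun i => (Fm N (e i) A).filter fun F => MvPolynomial.eval x F = 0) ×ˢ
        (Fintype.piFinset fun j => (Fm N (k j) A).filter fun F => MvPolynomial.eval x F = n j) := by
      intro P hP
      unfold Bad at hP
      rw [Finset.mem_filter, Finset.mem_filter] at hP
      obtain ⟨⟨hP1, hP2, -⟩, hP3⟩ := hP
      unfold Pr at hP1
      rw [Finset.mem_product, Fintype.mem_piFinset, Fintype.mem_piFinset] at hP1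
      rw [Finset.mem_product, Fintype.mem_piFinset, Fintype.mem_piFinset]
      refine ⟨fun i => Finset.mem_filter.2 ⟨hP1.1 i, hP2 i⟩, fun j =>
        Finset.mem_filter.2 ⟨hP1.2 j, ?_⟩⟩
      rw [← hP3]
    have h3 := Finset.card_le_card h2
    rw [Finset.card_product, Fintype.card_piFinset, Fintype.card_piFinset] at h3
    have h4 : (((Bad N e k S t A x).filter
        fun P => (fun j => MvPolynomial.eval x (P.2 j)) = n).card : ℝ) ≤
        (∏ i, (((Fm N (e i) A).filter fun F => MvPolynomial.eval x F = 0).card : ℝ)) *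
        ∏ j, (((Fm N (k j) A).filter fun F => MvPolynomial.eval x F = n j).card : ℝ) := by
      exact_mod_cast h3
    refine h4.trans ?_
    have h5 : (∏ i, (((Fm N (e i) A).filter fun F => MvPolynomial.eval x F = 0).card : ℝ)) ≤
        ∏ i, (Ke i * (Fm N (e i) A).card * ((A : ℝ)⁻¹ * (l ^ e i)⁻¹)) :=
      Finset.prod_le_prod (fun _ _ => Nat.cast_nonneg _) fun i _ => hKe i A hA x v hv 0
    have h6 : (∏ j, (((Fm N (k j) A).filter fun F => MvPolynomial.eval x F = n j).card : ℝ)) ≤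
        ∏ j, (Kk j * (Fm N (k j) A).card * ((A : ℝ)⁻¹ * (l ^ k j)⁻¹)) :=
      Finset.prod_le_prod (fun _ _ => Nat.cast_nonneg _) fun j _ => hKk j A hA x v hv (n j)
    refine (mul_le_mul h5 h6 (Finset.prod_nonneg fun _ _ => Nat.cast_nonneg _)
      (Finset.prod_nonneg fun i _ => mul_nonneg (mul_nonneg (hKe0 i).le (Nat.cast_nonneg _))
        (by positivity))).trans ?_
    refine le_of_eq ?_
    simp only [Finset.prod_mul_distrib, Finset.prod_inv_distrib, Finset.prod_const,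
      Finset.card_univ, Fintype.card_fin, Finset.prod_pow_eq_pow_sum]
    unfold Pr
    rw [Finset.card_product, Fintype.card_piFinset, Fintype.card_piFinset]
    push_cast
    rw [pow_add, pow_add, mul_inv, mul_inv]
    ring
  have h9 : (Bad N e k S t A x).card = ∑ n ∈ NN, ((Bad N e k S t A x).filter
      fun P => (fun j => MvPolynomial.eval x (P.2 j)) = n).card :=
    Finset.card_eq_sum_card_fiberwise fun P hP =>
      Finset.mem_coe.2 (Finset.mem_image_of_mem _ (Finset.mem_coe.1 hP))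
  have h10 : ((Bad N e k S t A x).card : ℝ) ≤ NN.card * (((∏ i, Ke i) * ∏ j, Kk j) *
      (Pr N e k A).card * ((A : ℝ) ^ (r + q))⁻¹ * (l ^ (∑ i, e i + ∑ j, k j))⁻¹) := by
    rw [h9]; push_cast
    refine (Finset.sum_le_sum hfib).trans ?_
    rw [Finset.sum_const, nsmul_eq_mul]
  have hZδ : Z ^ δ' ≤ (m : ℝ) ^ δ' * (A : ℝ) ^ δ * (nrm x : ℝ) ^ δ := by
    rw [hZ, Real.mul_rpow (by positivity) (by positivity), Real.mul_rpow hm0.le hA0.le]
    have hle : δ' ≤ δ := by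
      rw [hδ']; exact div_le_self hδ.le (by linarith [Nat.cast_nonneg (α := ℝ) K])
    have h11 : (A : ℝ) ^ δ' ≤ (A : ℝ) ^ δ := Real.rpow_le_rpow_of_exponent_le hA1 hle
    have h12 : ((nrm x : ℝ) ^ K) ^ δ' ≤ (nrm x : ℝ) ^ δ := by
      rw [← Real.rpow_natCast, ← Real.rpow_mul hs0.le]
      refine Real.rpow_le_rpow_of_exponent_le hs1 ?_
      rw [hδ', ← mul_div_assoc, div_le_iff₀ hK0]
      nlinarith
    exact mul_le_mul (mul_le_mul_of_nonneg_left h11 (by positivity)) h12 (by positivity)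
      (by positivity)
  refine h10.trans ?_
  have h13 : (0 : ℝ) ≤ ((∏ i, Ke i) * ∏ j, Kk j) *
      (Pr N e k A).card * ((A : ℝ) ^ (r + q))⁻¹ * (l ^ (∑ i, e i + ∑ j, k j))⁻¹ :=
    mul_nonneg (mul_nonneg (mul_nonneg hprodpos.le (Nat.cast_nonneg _)) (by positivity))
      (by positivity)
  calc (NN.card : ℝ) * _ ≤ (C1 * Real.exp t * ((m : ℝ) ^ δ' * (A : ℝ) ^ δ * (nrm x : ℝ) ^ δ)) * _ := by
        refine mul_le_mul_of_nonneg_right (hNNc.trans ?_) h13
        exact mul_le_mul_of_nonneg_left hZδ (by positivity)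
    _ = _ := by ring

/-- the main theorem -/
theorem main (N : ℕ) {r q : ℕ} (e : Fin r → ℕ) (k : Fin q → ℕ) (S : Finset ℕ)
    (P : Set (Fin (N + 1) → ℤ)) {a C₀ : ℝ} (ha : 0 ≤ a) (hC : 0 ≤ C₀)
    (hP : ∀ B : ℕ, 1 ≤ B → ∀ T : Finset (Fin (N + 1) → ℤ), (∀ x ∈ T, x ∈ P ∧ nrm x ≤ B) →
      (T.card : ℝ) ≤ C₀ * (B : ℝ) ^ a) {ε η : ℝ} (hε : 0 < ε) (hη : 0 < η) :
    ∃ C : ℝ, 0 < C ∧ ∀ A : ℕ, 1 ≤ A →
      ∀ T : Finset ((Fin r → MvPolynomial (Fin (N + 1)) ℤ) ×
        (Fin q → MvPolynomial (Fin (N + 1)) ℤ)),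
      (∀ G ∈ T, G ∈ Pr N e k A ∧ ∃ x ∈ P, (∃ v : Fin (N + 1) → ℤ, ∑ i, v i * x i = 1) ∧
        (∀ i, MvPolynomial.eval x (G.1 i) = 0) ∧ (∀ j, MvPolynomial.eval x (G.2 j) ≠ 0) ∧
        N1 S (∏ j, MvPolynomial.eval x (G.2 j)) <
          (((∑ i, e i + ∑ j, k j : ℕ) : ℝ)) * Real.log (lev A x (nrm x)) -
            (a + ε) * Real.log (nrm x) + ((r : ℝ) + q - η) * Real.log A) →
      (T.card : ℝ) ≤ C * (A : ℝ) ^ (-(η / 2)) * (Pr N e k A).card := by
  classical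
  set δ : ℝ := min (η / 2) (ε / 2) with hδ
  have hδ0 : 0 < δ := lt_min (by positivity) (by positivity)
  obtain ⟨C1, hC1, h1⟩ := card_Bad N e k S hδ0
  obtain ⟨C2, hC2, h2⟩ := sum_nrm_le P ha (half_pos hε) hC hP
  refine ⟨C1 * C2, by positivity, fun A hA T hT => ?_⟩
  have hA0 : (0 : ℝ) < A := by exact_mod_cast (show 0 < A by omega)
  have hA1 : (1 : ℝ) ≤ A := by exact_mod_cast hA
  choose! pt hptP hptv hpt1 hpt2 hpt3 using fun G hG => (hT G hG).2
  set κ : ℕ := ∑ i, e i + ∑ j, k j with hκ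
  set X0 : Finset (Fin (N + 1) → ℤ) := T.image pt with hX0
  have hnz : ∀ x ∈ X0, nrm x ≠ 0 := by
    intro x hx h
    obtain ⟨G, hG, rfl⟩ := Finset.mem_image.1 hx
    obtain ⟨v, hv⟩ := hptv G hG
    exact absurd h (nrm_pos hv).ne'
  have hsub : T ⊆ X0.biUnion fun x => Bad N e k S ((κ : ℝ) * Real.log (lev A x (nrm x)) -
            (a + ε) * Real.log (nrm x) + ((r : ℝ) + q - η) * Real.log A) A x := by
    intro G hG
    rw [Finset.mem_biUnion]
    refine ⟨pt G, Finset.mem_image_of_mem _ hG, ?_⟩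
    unfold Bad
    rw [Finset.mem_filter]
    exact ⟨(hT G hG).1, hpt1 G hG, hpt2 G hG, hpt3 G hG⟩
  have h3 : (T.card : ℝ) ≤ ∑ x ∈ X0, ((Bad N e k S ((κ : ℝ) * Real.log (lev A x (nrm x)) -
            (a + ε) * Real.log (nrm x) + ((r : ℝ) + q - η) * Real.log A) A x).card : ℝ) := by
    have := (Finset.card_le_card hsub).trans Finset.card_biUnion_le
    exact_mod_cast this
  refine h3.trans ?_
  have h4 : ∀ x ∈ X0, ((Bad N e k S ((κ : ℝ) * Real.log (lev A x (nrm x)) -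
            (a + ε) * Real.log (nrm x) + ((r : ℝ) + q - η) * Real.log A) A x).card : ℝ) ≤
      C1 * (Pr N e k A).card * (A : ℝ) ^ (-(η / 2)) * (nrm x : ℝ) ^ (-(a + ε / 2)) := by
    intro x hx
    have hx' := hx
    obtain ⟨G, hG, rfl⟩ := Finset.mem_image.1 hx
    obtain ⟨v, hv⟩ := hptv G hG
    set x := pt G with hxdef
    have hs : 0 < nrm x := Nat.pos_of_ne_zero (hnz x hx')
    have hs0 : (0 : ℝ) < nrm x := by exact_mod_cast hs
    have hs1 : (1 : ℝ) ≤ nrm x := by exact_mod_cast hs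
    have hl : 0 < lev A x (nrm x) := lev_pos hA x hs
    have hl0 : (0 : ℝ) < lev A x (nrm x) := by exact_mod_cast hl
    refine (h1 A hA x v hv _).trans ?_
    have h5 : Real.exp ((κ : ℝ) * Real.log (lev A x (nrm x)) -
            (a + ε) * Real.log (nrm x) + ((r : ℝ) + q - η) * Real.log A) =
        (lev A x (nrm x) : ℝ) ^ κ * (nrm x : ℝ) ^ (-(a + ε)) *
          ((A : ℝ) ^ (r + q) * (A : ℝ) ^ (-η)) := by
      have h6 : (lev A x (nrm x) : ℝ) ^ κ = Real.exp ((κ : ℝ) * Real.log (lev A x (nrm x))) := by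
        rw [← Real.rpow_natCast, Real.rpow_def_of_pos hl0, mul_comm]
      have h7 : (nrm x : ℝ) ^ (-(a + ε)) = Real.exp (-(a + ε) * Real.log (nrm x)) := by
        rw [Real.rpow_def_of_pos hs0, mul_comm]
      have h8 : (A : ℝ) ^ (r + q) = Real.exp (((r : ℝ) + q) * Real.log A) := by
        rw [← Real.rpow_natCast, Real.rpow_def_of_pos hA0, mul_comm]
        push_cast; rfl
      have h9 : (A : ℝ) ^ (-η) = Real.exp (-η * Real.log A) := by
        rw [Real.rpow_def_of_pos hA0, mul_comm]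
      rw [h6, h7, h8, h9, ← Real.exp_add, ← Real.exp_add, ← Real.exp_add]
      congr 1; ring
    rw [h5]
    have h6 : (A : ℝ) ^ (-η) * (A : ℝ) ^ δ ≤ (A : ℝ) ^ (-(η / 2)) := by
      rw [← Real.rpow_add hA0]
      refine Real.rpow_le_rpow_of_exponent_le hA1 ?_
      have := min_le_left (η / 2) (ε / 2)
      rw [← hδ] at this; linarith
    have h7 : (nrm x : ℝ) ^ (-(a + ε)) * (nrm x : ℝ) ^ δ ≤ (nrm x : ℝ) ^ (-(a + ε / 2)) := by
      rw [← Real.rpow_add hs0]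
      refine Real.rpow_le_rpow_of_exponent_le hs1 ?_
      have := min_le_right (η / 2) (ε / 2)
      rw [← hδ] at this; linarith
    have h8 : (lev A x (nrm x) : ℝ) ^ κ * ((lev A x (nrm x) : ℝ) ^ κ)⁻¹ = 1 :=
      mul_inv_cancel₀ (by positivity)
    have h9 : (A : ℝ) ^ (r + q) * ((A : ℝ) ^ (r + q))⁻¹ = 1 := mul_inv_cancel₀ (by positivity)
    calc C1 * (Pr N e k A).card * ((lev A x (nrm x) : ℝ) ^ κ * (nrm x : ℝ) ^ (-(a + ε)) *
          ((A : ℝ) ^ (r + q) * (A : ℝ) ^ (-η))) * (A : ℝ) ^ δ * (nrm x : ℝ) ^ δ *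
          ((A : ℝ) ^ (r + q))⁻¹ * ((lev A x (nrm x) : ℝ) ^ κ)⁻¹
        = C1 * (Pr N e k A).card * ((A : ℝ) ^ (-η) * (A : ℝ) ^ δ) *
          ((nrm x : ℝ) ^ (-(a + ε)) * (nrm x : ℝ) ^ δ) *
          ((lev A x (nrm x) : ℝ) ^ κ * ((lev A x (nrm x) : ℝ) ^ κ)⁻¹) *
          ((A : ℝ) ^ (r + q) * ((A : ℝ) ^ (r + q))⁻¹) := by ring
      _ = C1 * (Pr N e k A).card * ((A : ℝ) ^ (-η) * (A : ℝ) ^ δ) *
          ((nrm x : ℝ) ^ (-(a + ε)) * (nrm x : ℝ) ^ δ) := by rw [h8, h9, mul_one, mul_one]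
      _ ≤ C1 * (Pr N e k A).card * (A : ℝ) ^ (-(η / 2)) * (nrm x : ℝ) ^ (-(a + ε / 2)) := by
          gcongr
  refine (Finset.sum_le_sum h4).trans ?_
  rw [← Finset.mul_sum]
  have h5 := h2 X0 fun x hx => ⟨by
    obtain ⟨G, hG, rfl⟩ := Finset.mem_image.1 hx
    exact hptP G hG, hnz x hx⟩
  calc C1 * (Pr N e k A).card * (A : ℝ) ^ (-(η / 2)) * ∑ x ∈ X0, (nrm x : ℝ) ^ (-(a + ε / 2))
      ≤ C1 * (Pr N e k A).card * (A : ℝ) ^ (-(η / 2)) * C2 :=
        mul_le_mul_of_nonneg_left h5 (by positivity)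
    _ = _ := by ring

end Pool.Agent.Y731.RD
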