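import Mathlib

set_option autoImplicit false

/-!
Linear forms with small coefficients attain many residues, and homogeneous forms with small
coefficients attain many values at a primitive vector.
-/

namespace Pool.Agent.Y731.RD

open Finset

variable {ι : Type} [Fintype ι] [DecidableEq ι]

/-- a set of residues containing `0` and stable under the addition of generators is everything -/
theorem closed_univ {s : ℕ} [NeZero s] (y : ι → ZMod s) (u : ι → ZMod s)
    (hu : ∑ i, u i * y i = 1) (R : Finset (ZMod s)) (h0 : (0 : ZMod s) ∈ R)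
    (hR : ∀ z ∈ R, ∀ i, z + y i ∈ R) : R = Finset.univ := by
  have h1 : ∀ (n : ℕ) (i : ι), ∀ z ∈ R, z + (n : ZMod s) * y i ∈ R := by
    intro n i
    induction n with
    | zero => intro z hz; simpa using hz
    | succ n ih =>
      intro z hz
      have h2 := hR _ (ih z hz) i
      have h3 : z + (n : ZMod s) * y i + y i = z + ((n + 1 : ℕ) : ZMod s) * y i := by
        push_cast; ring
      rwa [h3] at h2
  have h2 : ∀ (J : Finset ι) (n : ι → ℕ), ∀ z ∈ R, z + ∑ i ∈ J, (n i : ZMod s) * y i ∈ R := by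
    intro J n
    induction J using Finset.induction_on with
    | empty => intro z hz; simpa using hz
    | insert a J ha ih =>
      intro z hz
      rw [Finset.sum_insert ha]
      have h3 := ih _ (h1 (n a) a z hz)
      rwa [add_assoc] at h3
  refine Finset.eq_univ_iff_forall.2 fun w => ?_
  have h3 := h2 Finset.univ (fun i => (w * u i).val) 0 h0
  have h4 : (0 : ZMod s) + ∑ i, (((w * u i).val : ℕ) : ZMod s) * y i = w := by
    rw [zero_add]
    calc ∑ i, (((w * u i).val : ℕ) : ZMod s) * y i = ∑ i, w * (u i * y i) := by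
          refine Finset.sum_congr rfl fun i _ => ?_
          rw [ZMod.natCast_zmod_val]; ring
      _ = w := by rw [← Finset.mul_sum, hu, mul_one]
  rwa [h4] at h3

/-- many residues of linear forms with small coefficients -/
theorem many_residues {s : ℕ} [NeZero s] (y : ι → ZMod s) (u : ι → ZMod s)
    (hu : ∑ i, u i * y i = 1) (t : ℕ) :
    ∃ U : Finset (ι → ℕ), 0 ∈ U ∧ (∀ c ∈ U, ∀ i, c i ≤ t) ∧
      Set.InjOn (fun c : ι → ℕ => ∑ i, (c i : ZMod s) * y i) (U : Set (ι → ℕ)) ∧
      min s (t + 1) ≤ U.card := by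
  induction t with
  | zero =>
    refine ⟨{0}, by simp, by simp, by simp, ?_⟩
    simp
  | succ t ih =>
    obtain ⟨U, h0, hb, hinj, hcard⟩ := ih
    by_cases hs : s ≤ U.card
    · exact ⟨U, h0, fun c hc i => (hb c hc i).trans (Nat.le_succ t), hinj,
        (min_le_left _ _).trans hs⟩
    · set φ : (ι → ℕ) → ZMod s := fun c => ∑ i, (c i : ZMod s) * y i with hφ
      have h1 : U.image φ ≠ Finset.univ := by
        intro h
        have h2 := congrArg Finset.card h
        rw [Finset.card_image_of_injOn hinj, Finset.card_univ, ZMod.card] at h2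
        omega
      have h2 : ∃ c ∈ U, ∃ i, φ c + y i ∉ U.image φ := by
        by_contra hcon
        push Not at hcon
        refine h1 (closed_univ y u hu _ ?_ ?_)
        · refine Finset.mem_image.2 ⟨0, h0, ?_⟩
          simp [hφ]
        · intro z hz i
          obtain ⟨c, hc, rfl⟩ := Finset.mem_image.1 hz
          exact hcon c hc i
      obtain ⟨c, hc, i, hci⟩ := h2
      set c' : ι → ℕ := Function.update c i (c i + 1) with hc'
      have h3 : φ c' = φ c + y i := by
        rw [hφ]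
        simp only
        rw [← Finset.add_sum_erase _ _ (Finset.mem_univ i),
          ← Finset.add_sum_erase (f := fun j => (c j : ZMod s) * y j) _ (Finset.mem_univ i)]
        have h4 : ∑ j ∈ Finset.univ.erase i, ((c' j : ℕ) : ZMod s) * y j =
            ∑ j ∈ Finset.univ.erase i, ((c j : ℕ) : ZMod s) * y j := by
          refine Finset.sum_congr rfl fun j hj => ?_
          rw [hc', Function.update_of_ne (Finset.ne_of_mem_erase hj)]
        rw [h4, hc', Function.update_self]
        push_cast; ring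
      have h4 : c' ∉ U := fun h => hci (by rw [← h3]; exact Finset.mem_image_of_mem _ h)
      refine ⟨insert c' U, Finset.mem_insert_of_mem h0, ?_, ?_, ?_⟩
      · intro b hb' j
        rcases Finset.mem_insert.1 hb' with rfl | hb'
        · rw [hc']
          by_cases hj : j = i
          · subst hj; rw [Function.update_self]; have := hb c hc j; omega
          · rw [Function.update_of_ne hj]; have := hb c hc j; omega
        · have := hb b hb' j; omega
      · rw [Finset.coe_insert, Set.injOn_insert (by simpa using h4)]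
        refine ⟨hinj, ?_⟩
        rintro ⟨b, hb', hbe⟩
        refine hci ?_
        rw [← h3]
        exact Finset.mem_image.2 ⟨b, hb', hbe⟩
      · rw [Finset.card_insert_of_notMem h4]; omega

open MvPolynomial

/-- one more degree -/
theorem step {N : ℕ} (x : Fin (N + 1) → ℤ) (i₀ : Fin (N + 1)) (hx : x i₀ ≠ 0) {k M M' a b : ℕ}
    (V U : Finset (MvPolynomial (Fin (N + 1)) ℤ))
    (hV : ∀ F ∈ V, F.IsHomogeneous k ∧ ∀ α, |coeff α F| ≤ (M : ℤ))
    (hVi : Set.InjOn (fun F : MvPolynomial (Fin (N + 1)) ℤ => MvPolynomial.eval x F)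
        (V : Set (MvPolynomial (Fin (N + 1)) ℤ)))
    (hVc : a ≤ V.card)
    (hU : ∀ F ∈ U, F.IsHomogeneous (k + 1) ∧ ∀ α, |coeff α F| ≤ (M' : ℤ))
    (hUi : ∀ F ∈ U, ∀ G ∈ U, x i₀ ∣ MvPolynomial.eval x F - MvPolynomial.eval x G → F = G)
    (hUc : b ≤ U.card) :
    ∃ W : Finset (MvPolynomial (Fin (N + 1)) ℤ),
      (∀ F ∈ W, F.IsHomogeneous (k + 1) ∧ ∀ α, |coeff α F| ≤ ((M + M' : ℕ) : ℤ)) ∧
      Set.InjOn (fun F : MvPolynomial (Fin (N + 1)) ℤ => MvPolynomial.eval x F)
        (W : Set (MvPolynomial (Fin (N + 1)) ℤ)) ∧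
      a * b ≤ W.card := by
  classical
  set Φ : MvPolynomial (Fin (N + 1)) ℤ × MvPolynomial (Fin (N + 1)) ℤ →
      MvPolynomial (Fin (N + 1)) ℤ := fun p => X i₀ * p.1 + p.2 with hΦ
  have hval : ∀ p, MvPolynomial.eval x (Φ p) =
      x i₀ * MvPolynomial.eval x p.1 + MvPolynomial.eval x p.2 := by
    intro p; rw [hΦ]; simp only [map_add, map_mul, eval_X]
  have hinjΦ : ∀ p ∈ V ×ˢ U, ∀ p' ∈ V ×ˢ U,
      MvPolynomial.eval x (Φ p) = MvPolynomial.eval x (Φ p') → p = p' := by
    intro p hp p' hp' he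
    rw [Finset.mem_product] at hp hp'
    rw [hval, hval] at he
    have h2 : p.2 = p'.2 := by
      refine hUi _ hp.2 _ hp'.2 ⟨MvPolynomial.eval x p'.1 - MvPolynomial.eval x p.1, ?_⟩
      linarith
    rw [h2] at he
    have h3 : MvPolynomial.eval x p.1 = MvPolynomial.eval x p'.1 :=
      mul_left_cancel₀ hx (by linarith)
    exact Prod.ext (hVi (Finset.mem_coe.2 hp.1) (Finset.mem_coe.2 hp'.1) h3) h2
  refine ⟨(V ×ˢ U).image Φ, ?_, ?_, ?_⟩
  · intro F hF
    obtain ⟨p, hp, rfl⟩ := Finset.mem_image.1 hF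
    rw [Finset.mem_product] at hp
    refine ⟨?_, fun α => ?_⟩
    · rw [hΦ]
      refine IsHomogeneous.add ?_ (hU p.2 hp.2).1
      have h1 := (isHomogeneous_X ℤ i₀).mul (hV p.1 hp.1).1
      rwa [show 1 + k = k + 1 from add_comm 1 k] at h1
    · rw [hΦ]
      simp only [coeff_add]
      have h1 : |coeff α (X i₀ * p.1)| ≤ (M : ℤ) := by
        rw [coeff_X_mul']
        split_ifs
        · exact (hV p.1 hp.1).2 _
        · simp
      calc |coeff α (X i₀ * p.1) + coeff α p.2| ≤ _ := abs_add_le _ _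
        _ ≤ (M : ℤ) + M' := add_le_add h1 ((hU p.2 hp.2).2 α)
        _ = _ := by push_cast; ring
  · intro F hF G hG hFG
    obtain ⟨p, hp, rfl⟩ := Finset.mem_image.1 (Finset.mem_coe.1 hF)
    obtain ⟨p', hp', rfl⟩ := Finset.mem_image.1 (Finset.mem_coe.1 hG)
    rw [hinjΦ p hp p' hp' hFG]
  · rw [Finset.card_image_of_injOn (fun p hp p' hp' he =>
      hinjΦ p (Finset.mem_coe.1 hp) p' (Finset.mem_coe.1 hp') (by rw [he])),
      Finset.card_product]
    exact Nat.mul_le_mul hVc hUc

/-- powers of the entries of a primitive vector are primitive -/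
theorem pow_gen {N : ℕ} (x : Fin (N + 1) → ℤ) (v : Fin (N + 1) → ℤ)
    (hv : ∑ i, v i * x i = 1) (k : ℕ) : ∃ u : Fin (N + 1) → ℤ, ∑ i, u i * x i ^ k = 1 := by
  rcases Nat.eq_zero_or_pos k with rfl | hk
  · exact ⟨Pi.single 0 1, by simp⟩
  have h1 : Ideal.span (Set.range fun i => x i ^ k) = ⊤ := by
    have h2 : Ideal.span (Set.range x) = ⊤ := by
      rw [Ideal.eq_top_iff_one, ← hv]
      exact Ideal.sum_mem _ fun i _ => Ideal.mul_mem_left _ _ (Ideal.subset_span ⟨i, rfl⟩)
    have h3 := Ideal.span_pow_eq_top (Set.range x) h2 k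
    rw [← Set.range_comp] at h3
    exact h3
  have h2 : (1 : ℤ) ∈ Ideal.span (Set.range fun i => x i ^ k) := by
    rw [h1]; exact Submodule.mem_top
  obtain ⟨c, hc⟩ := (Ideal.mem_span_range_iff_exists_fun).1 h2
  exact ⟨c, hc⟩

/-- a set of forms of degree `k + 1` with distinct residues, any vector -/
theorem res_small {N : ℕ} (x : Fin (N + 1) → ℤ) (v : Fin (N + 1) → ℤ)
    (hv : ∑ i, v i * x i = 1) (i₀ : Fin (N + 1)) (hx : x i₀ ≠ 0) (A : ℕ) (k : ℕ) :
    ∃ U : Finset (MvPolynomial (Fin (N + 1)) ℤ),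
      (∀ F ∈ U, F.IsHomogeneous (k + 1) ∧ ∀ α, |coeff α F| ≤ (((N + 1) * A : ℕ) : ℤ)) ∧
      (∀ F ∈ U, ∀ G ∈ U, x i₀ ∣ MvPolynomial.eval x F - MvPolynomial.eval x G → F = G) ∧
      min (x i₀).natAbs (A + 1) ≤ U.card := by
  classical
  have hs : (x i₀).natAbs ≠ 0 := Int.natAbs_ne_zero.2 hx
  have hne : NeZero (x i₀).natAbs := ⟨hs⟩
  set s := (x i₀).natAbs with hsdef
  obtain ⟨u, hu⟩ := pow_gen x v hv (k + 1)
  have hu' : ∑ i, (u i : ZMod s) * ((x i : ZMod s) ^ (k + 1)) = 1 := by
    have h3 := congrArg (fun z : ℤ => (z : ZMod s)) hu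
    push_cast at h3
    exact h3
  obtain ⟨U, -, hUb, hUinj, hUcard⟩ := many_residues (fun i => (x i : ZMod s) ^ (k + 1))
    (fun i => (u i : ZMod s)) hu' A
  set h : (Fin (N + 1) → ℕ) → MvPolynomial (Fin (N + 1)) ℤ :=
    fun c => ∑ i, C (c i : ℤ) * X i ^ (k + 1) with hh
  have heval : ∀ c, MvPolynomial.eval x (h c) = ∑ i, (c i : ℤ) * x i ^ (k + 1) := by
    intro c; rw [hh]; simp [map_sum]
  have hinj : ∀ c ∈ U, ∀ c' ∈ U, x i₀ ∣ MvPolynomial.eval x (h c) - MvPolynomial.eval x (h c') →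
      c = c' := by
    intro c hc c' hc' hd
    refine hUinj (Finset.mem_coe.2 hc) (Finset.mem_coe.2 hc') ?_
    have h1 : ((MvPolynomial.eval x (h c) - MvPolynomial.eval x (h c') : ℤ) : ZMod s) = 0 := by
      rw [ZMod.intCast_zmod_eq_zero_iff_dvd, hsdef]
      exact Int.natAbs_dvd.2 hd
    rw [heval, heval] at h1
    push_cast at h1
    exact sub_eq_zero.1 h1
  refine ⟨U.image h, ?_, ?_, ?_⟩
  · intro F hF
    obtain ⟨c, hc, rfl⟩ := Finset.mem_image.1 hF
    refine ⟨?_, fun α => ?_⟩
    · rw [hh]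
      refine IsHomogeneous.sum _ _ _ fun i _ => ?_
      have := (isHomogeneous_C (Fin (N + 1)) ((c i : ℤ))).mul
        ((isHomogeneous_X ℤ i).pow (k + 1))
      simpa using this
    · rw [hh]
      simp only [coeff_sum]
      refine (Finset.abs_sum_le_sum_abs _ _).trans ?_
      have h3 : ∀ i ∈ (Finset.univ : Finset (Fin (N + 1))),
          |coeff α (C ((c i : ℕ) : ℤ) * (X i : MvPolynomial (Fin (N + 1)) ℤ) ^ (k + 1))| ≤
            (A : ℤ) := by
        intro i _
        rw [coeff_C_mul, coeff_X_pow]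
        have h4 : ((c i : ℕ) : ℤ) ≤ A := by exact_mod_cast hUb c hc i
        split_ifs
        · rw [mul_one, abs_of_nonneg (by positivity)]; exact h4
        · simp
      refine (Finset.sum_le_sum h3).trans ?_
      rw [Finset.sum_const, Finset.card_univ, Fintype.card_fin, nsmul_eq_mul]
      push_cast; exact le_rfl
  · intro F hF G hG hd
    obtain ⟨c, hc, rfl⟩ := Finset.mem_image.1 hF
    obtain ⟨c', hc', rfl⟩ := Finset.mem_image.1 hG
    rw [hinj c hc c' hc' hd]
  · rw [Finset.card_image_of_injOn]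
    · exact hUcard
    · intro c hc c' hc' he
      refine hinj c (Finset.mem_coe.1 hc) c' (Finset.mem_coe.1 hc') ?_
      rw [he, sub_self]
      exact dvd_zero _

end Pool.Agent.Y731.RD
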